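import Pool.Agent.TilDich.Main

/-!
# The number of tilings of a finitely generated abelian group by translates of a finite set is
finite or uncountable
-/

namespace TilDich

open Finset

variable {G ι : Type*} [AddCommGroup G]

open Classical in
/-- independent shifts of the classes modulo `Tor x` -/
theorem swap_tl (s : Finset ι) (u : ι → G) (x : G → Bool) (hx : Tl s u x) (N : ℕ)
    (hper : ∀ (i₀ : ι) (k g : G),
      ∑ i ∈ s with (QuotientAddGroup.mk (u i) : G ⧸ Tor x) = QuotientAddGroup.mk (u i₀),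
        ind (x (k + N • g - (u i - u i₀))) =
      ∑ i ∈ s with (QuotientAddGroup.mk (u i) : G ⧸ Tor x) = QuotientAddGroup.mk (u i₀),
        ind (x (k - (u i - u i₀))))
    (γ : G ⧸ Tor x → G) :
    Tl s u (fun k => x (k + N • γ (QuotientAddGroup.mk k))) := by
  intro k
  have h1 := hx k
  rw [← h1]
  have hmaps : ∀ i ∈ s, (QuotientAddGroup.mk (u i) : G ⧸ Tor x) ∈
      s.image (fun i => (QuotientAddGroup.mk (u i) : G ⧸ Tor x)) :=
    fun i hi => Finset.mem_image_of_mem _ hi
  rw [← Finset.sum_fiberwise_of_maps_to hmaps, ← Finset.sum_fiberwise_of_maps_to hmaps]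
  refine Finset.sum_congr rfl fun c hc => ?_
  obtain ⟨i₀, _, rfl⟩ := Finset.mem_image.mp hc
  have h2 := hper i₀ (k - u i₀) (γ (QuotientAddGroup.mk (k - u i₀)))
  have h3 : ∑ i ∈ s with (QuotientAddGroup.mk (u i) : G ⧸ Tor x) = QuotientAddGroup.mk (u i₀),
        ind (x (k - u i + N • γ (QuotientAddGroup.mk (k - u i)))) =
      ∑ i ∈ s with (QuotientAddGroup.mk (u i) : G ⧸ Tor x) = QuotientAddGroup.mk (u i₀),
        ind (x (k - u i₀ + N • γ (QuotientAddGroup.mk (k - u i₀)) - (u i - u i₀))) := by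
    refine Finset.sum_congr rfl fun i hi => ?_
    rw [Finset.mem_filter] at hi
    have h4 : (QuotientAddGroup.mk (k - u i) : G ⧸ Tor x) = QuotientAddGroup.mk (k - u i₀) := by
      rw [QuotientAddGroup.mk_sub, QuotientAddGroup.mk_sub, hi.2]
    rw [h4]
    congr 2
    abel
  have h5 : ∑ i ∈ s with (QuotientAddGroup.mk (u i) : G ⧸ Tor x) = QuotientAddGroup.mk (u i₀),
        ind (x (k - u i)) =
      ∑ i ∈ s with (QuotientAddGroup.mk (u i) : G ⧸ Tor x) = QuotientAddGroup.mk (u i₀),
        ind (x (k - u i₀ - (u i - u i₀))) := by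
    refine Finset.sum_congr rfl fun i _ => ?_
    congr 2
    abel
  exact h3.trans (h2.trans h5.symm)

/-- **Dichotomy.**  Let `G` be a finitely generated abelian group and let `u i`, `i ∈ s`, be a finite
(indexed) tile.  The set of all `a ⊆ G` with `u ⊕ a = G` is finite or uncountable. -/
theorem finite_or_uncountable [AddGroup.FG G] (s : Finset ι) (u : ι → G) :
    {a : G → Bool | Tl s u a}.Finite ∨ ¬ {a : G → Bool | Tl s u a}.Countable := by
  classical
  by_contra hcon
  push Not at hcon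
  obtain ⟨hinf, hct⟩ := hcon
  obtain ⟨x, hx, horb, S, hS, hi, hSx⟩ :=
    exists_asymptotic _ (isClosed_tl s u) (inv_tl s u) hct hinf
  obtain ⟨N, hN, hNS⟩ := exists_period S hS hi
  have hper := fun i₀ k g => class_periodic s u x hx S hS hi hSx N hN hNS i₀ k g
  have hsw := swap_tl s u x hx N hper
  obtain ⟨g₀, hg₀⟩ := exists_not_tor x horb
  obtain ⟨g₁, k₀, hk₀⟩ : ∃ g₁ k₀ : G, x (k₀ + N • g₁) ≠ x k₀ := by
    by_contra h
    push Not at h
    exact hg₀ ⟨N, hN, funext fun k => h g₀ k⟩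
  set κ : ℕ → G := fun n => k₀ + (N * n) • g₀ with hκ
  have hκinj : ∀ n m : ℕ, (QuotientAddGroup.mk (κ n) : G ⧸ Tor x) = QuotientAddGroup.mk (κ m) →
      n = m := by
    intro n m h
    by_contra hne
    wlog hlt : n < m generalizing n m
    · exact this m n h.symm (Ne.symm hne) (lt_of_le_of_ne (not_lt.mp hlt) (Ne.symm hne))
    rw [QuotientAddGroup.eq] at h
    have h1 : -κ n + κ m = (N * (m - n)) • g₀ := by
      rw [hκ]
      have : (N * m) • g₀ = (N * n) • g₀ + (N * (m - n)) • g₀ := by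
        rw [← add_nsmul, ← mul_add]
        congr 2
        omega
      simp only [this]
      abel
    rw [h1] at h
    obtain ⟨l, hl, hl'⟩ := h
    refine hg₀ ⟨l * (N * (m - n)), Nat.mul_pos hl (Nat.mul_pos hN (by omega)), ?_⟩
    rw [mul_smul]
    exact hl'
  set γ : Set ℕ → G ⧸ Tor x → G := fun E c =>
    if h : ∃ n, c = QuotientAddGroup.mk (κ n) then
      (if h.choose ∈ E then g₁ else 0) - h.choose • g₀ else 0 with hγ
  have hγκ : ∀ (E : Set ℕ) (n : ℕ), γ E (QuotientAddGroup.mk (κ n)) =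
      (if n ∈ E then g₁ else 0) - n • g₀ := by
    intro E n
    have h : ∃ m, (QuotientAddGroup.mk (κ n) : G ⧸ Tor x) = QuotientAddGroup.mk (κ m) :=
      ⟨n, rfl⟩
    have h1 : h.choose = n := (hκinj n _ h.choose_spec).symm
    rw [hγ]
    simp only
    rw [dif_pos h, h1]
  set Φ : Set ℕ → {a : G → Bool | Tl s u a} := fun E =>
    ⟨fun k => x (k + N • γ E (QuotientAddGroup.mk k)), hsw (γ E)⟩ with hΦ
  have hΦκ : ∀ (E : Set ℕ) (n : ℕ), n ∈ E ↔ (Φ E : G → Bool) (κ n) ≠ x k₀ := by
    intro E n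
    show n ∈ E ↔ x (κ n + N • γ E (QuotientAddGroup.mk (κ n))) ≠ x k₀
    rw [hγκ]
    by_cases hn : n ∈ E
    · rw [if_pos hn]
      have : κ n + N • (g₁ - n • g₀) = k₀ + N • g₁ := by
        show k₀ + (N * n) • g₀ + N • (g₁ - n • g₀) = k₀ + N • g₁
        rw [smul_sub, mul_smul]
        abel
      rw [this]
      exact ⟨fun _ => hk₀, fun _ => hn⟩
    · rw [if_neg hn]
      have : κ n + N • (0 - n • g₀) = k₀ := by
        show k₀ + (N * n) • g₀ + N • (0 - n • g₀) = k₀
        rw [zero_sub, smul_neg, mul_smul]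
        abel
      rw [this]
      exact ⟨fun h => absurd h hn, fun h => absurd rfl h⟩
  have hinj : Function.Injective Φ := by
    intro E E' h
    ext n
    rw [hΦκ E n, hΦκ E' n, h]
  have hcX : Countable {a : G → Bool | Tl s u a} := hct.to_subtype
  have hcN : Countable (Set ℕ) := hinj.countable
  obtain ⟨f, hf⟩ := hcN.exists_injective_nat
  exact Function.cantor_injective f hf

end TilDich
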