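import Mathlib

/-!
# Translational tilings of abelian groups: the dilation lemma

`Tl s u a` : the set `{g | a g = true}` together with the (indexed) tile `u i`, `i ∈ s`, tiles the
abelian group `G`.  If `r` is prime to `s.card !` then the dilated tile `r • u i` also tiles with
the same set.
-/

namespace TilDich

open Finset

/-- numerical value of a Boolean -/
def ind (b : Bool) : ℕ := if b then 1 else 0

theorem ind_le_one (b : Bool) : ind b ≤ 1 := by
  cases b <;> simp [ind]

/-- `a` (as a set) is a complement of the indexed tile `u i`, `i ∈ s` -/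
def Tl {G ι : Type*} [AddCommGroup G] (s : Finset ι) (u : ι → G) (a : G → Bool) : Prop :=
  ∀ x, ∑ i ∈ s, ind (a (x - u i)) = 1

section dil

variable {G ι : Type*} [AddCommGroup G]

/-- translation operators on functions -/
def Tr (k : Type*) [CommRing k] : Multiplicative G →* Module.End k (G → k) where
  toFun g :=
    { toFun := fun m x => m (x - g.toAdd)
      map_add' := fun _ _ => rfl
      map_smul' := fun _ _ => rfl }
  map_one' := by
    ext m x
    simp
  map_mul' g h := by
    refine LinearMap.ext fun m => ?_
    funext x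
    show m (x - (g * h).toAdd) = m (x - g.toAdd - h.toAdd)
    congr 1
    rw [toAdd_mul]
    abel

theorem dil_prime (s : Finset ι) (u : ι → G) (a : G → Bool) (h : Tl s u a) (p : ℕ)
    (hp : p.Prime) (hps : s.card < p) : Tl s (fun i => p • u i) a := by
  have : Fact p.Prime := ⟨hp⟩
  have hs0 : 0 < s.card := by
    rw [Finset.card_pos]
    by_contra hne
    rw [Finset.not_nonempty_iff_eq_empty] at hne
    have := h 0
    rw [hne] at this
    simp at this
  set Φ := AddMonoidAlgebra.lift (ZMod p) (Module.End (ZMod p) (G → ZMod p)) G (Tr (ZMod p))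
    with hΦ
  set P : AddMonoidAlgebra (ZMod p) G := ∑ i ∈ s, AddMonoidAlgebra.single (u i) 1 with hP
  have hΦP : ∀ (m : G → ZMod p) (x : G), Φ P m x = ∑ i ∈ s, m (x - u i) := by
    intro m x
    rw [hP, map_sum, LinearMap.sum_apply, Finset.sum_apply]
    refine Finset.sum_congr rfl fun i _ => ?_
    rw [hΦ, AddMonoidAlgebra.lift_single]
    rw [one_smul]
    rfl
  have hCh : CharP (AddMonoidAlgebra (ZMod p) G) p :=
    charP_of_injective_algebraMap
      (algebraMap (ZMod p) (AddMonoidAlgebra (ZMod p) G)).injective p
  have hEx : ExpChar (AddMonoidAlgebra (ZMod p) G) p := ExpChar.prime hp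
  have hPp : P ^ p = ∑ i ∈ s, AddMonoidAlgebra.single (p • u i) 1 := by
    rw [hP, sum_pow_char]
    refine Finset.sum_congr rfl fun i _ => ?_
    rw [AddMonoidAlgebra.single_pow, one_pow]
  have hΦPp : ∀ (m : G → ZMod p) (x : G), Φ (P ^ p) m x = ∑ i ∈ s, m (x - p • u i) := by
    intro m x
    rw [hPp, map_sum, LinearMap.sum_apply, Finset.sum_apply]
    refine Finset.sum_congr rfl fun i _ => ?_
    rw [hΦ, AddMonoidAlgebra.lift_single]
    rw [one_smul]
    rfl
  set b : G → ZMod p := fun x => ((ind (a x) : ℕ) : ZMod p) with hb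
  have h1 : Φ P b = fun _ => 1 := by
    funext x
    rw [hΦP, hb]
    have := h x
    have h2 : (((∑ i ∈ s, ind (a (x - u i)) : ℕ)) : ZMod p) = 1 := by
      rw [this]; simp
    rw [Nat.cast_sum] at h2
    exact h2
  have h3 : ∀ n : ℕ, (Φ P) ^ (n + 1) • b = fun _ => ((s.card : ZMod p)) ^ n := by
    intro n
    induction n with
    | zero =>
      funext x
      simp only [zero_add, pow_one, pow_zero]
      exact congrFun h1 x
    | succ n ih =>
      rw [pow_succ', mul_smul, ih]
      funext x
      show Φ P _ x = _
      rw [hΦP]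
      simp only [Finset.sum_const, nsmul_eq_mul]
      ring
  intro x
  have h4 : Φ (P ^ p) b x = 1 := by
    rw [map_pow]
    have h5 := h3 (p - 1)
    have h6 : p - 1 + 1 = p := Nat.sub_add_cancel hp.one_lt.le
    rw [h6] at h5
    have h7 := congrFun h5 x
    have h8 : ((s.card : ZMod p)) ^ (p - 1) = 1 := by
      apply ZMod.pow_card_sub_one_eq_one
      intro h0
      rw [ZMod.natCast_eq_zero_iff] at h0
      exact absurd (Nat.le_of_dvd hs0 h0) (not_le.mpr hps)
    rw [h8] at h7
    exact h7
  rw [hΦPp] at h4
  set n := ∑ i ∈ s, ind (a (x - p • u i)) with hn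
  have h5 : ((n : ℕ) : ZMod p) = ((1 : ℕ) : ZMod p) := by
    rw [hn, Nat.cast_sum, Nat.cast_one]
    exact h4
  have h6 : n ≤ s.card := by
    rw [hn]
    calc ∑ i ∈ s, ind (a (x - p • u i)) ≤ ∑ i ∈ s, 1 :=
          Finset.sum_le_sum fun i _ => ind_le_one _
      _ = s.card := by simp
  rw [ZMod.natCast_eq_natCast_iff'] at h5
  rw [Nat.mod_eq_of_lt (lt_of_le_of_lt h6 hps), Nat.mod_eq_of_lt hp.one_lt] at h5
  exact h5

theorem dil (s : Finset ι) (u : ι → G) (a : G → Bool) (h : Tl s u a) (r : ℕ) (hr : 0 < r)
    (hc : Nat.Coprime r (s.card.factorial)) : Tl s (fun i => r • u i) a := by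
  induction r using Nat.strong_induction_on with
  | _ r ih =>
    rcases eq_or_ne r 1 with h1 | h1
    · subst h1
      simpa using h
    · have hp : (r.minFac).Prime := Nat.minFac_prime h1
      obtain ⟨m, hm⟩ := Nat.minFac_dvd r
      have hm0 : 0 < m := by
        rcases Nat.eq_zero_or_pos m with h0 | h0
        · rw [h0] at hm; omega
        · exact h0
      have hmr : m < r := by
        rw [hm] 
        nlinarith [hp.one_lt]
      have hcm : Nat.Coprime m (s.card.factorial) := Nat.Coprime.coprime_dvd_left ⟨r.minFac, by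
        rw [mul_comm]; exact hm⟩ hc
      have hcp : Nat.Coprime r.minFac (s.card.factorial) :=
        Nat.Coprime.coprime_dvd_left (Nat.minFac_dvd r) hc
      have hsp : s.card < r.minFac := by
        by_contra hle
        push Not at hle
        have : r.minFac ∣ s.card.factorial := (hp.dvd_factorial).mpr hle
        have h2 := Nat.Coprime.eq_one_of_dvd hcp this
        exact hp.one_lt.ne' h2
      have h3 := dil_prime s (fun i => m • u i) a (ih m hmr hm0 hcm) r.minFac hp hsp
      intro x
      have h4 := h3 x
      rw [← h4]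
      refine Finset.sum_congr rfl fun i _ => ?_
      show ind (a (x - r • u i)) = ind (a (x - r.minFac • m • u i))
      rw [← mul_smul, ← hm]

end dil

end TilDich
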