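import Mathlib

/-!
# Countable closed invariant sets of configurations on a finitely generated abelian group
-/

namespace TilDich

open Finset

variable {G : Type*} [AddCommGroup G]

/-- the shift -/
def sh (g : G) (a : G → Bool) : G → Bool := fun x => a (x + g)

theorem sh_zero (a : G → Bool) : sh 0 a = a := by
  funext x; simp [sh]

theorem sh_add (g h : G) (a : G → Bool) : sh (g + h) a = sh g (sh h a) := by
  funext x
  show a (x + (g + h)) = a (x + g + h)
  rw [add_assoc]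

theorem sh_neg_sh (g : G) (a : G → Bool) : sh (-g) (sh g a) = a := by
  rw [← sh_add]; simp [sh_zero]

theorem sh_sh_neg (g : G) (a : G → Bool) : sh g (sh (-g) a) = a := by
  rw [← sh_add]; simp [sh_zero]

theorem continuous_sh (g : G) : Continuous (sh g : (G → Bool) → (G → Bool)) :=
  continuous_pi fun x => continuous_apply (x + g)

/-- shift invariant set -/
def Inv (Y : Set (G → Bool)) : Prop := ∀ g, ∀ a ∈ Y, sh g a ∈ Y

/-- `s` matches `a` at the place `g` on the window `W` -/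
def Mt (W : Finset G) (a : G → Bool) (g : G) (s : G → Bool) : Prop :=
  ∀ w ∈ W, a (g + w) = s w

theorem exists_window [hfg : AddGroup.FG G] (S : Set (G → Bool)) (hS : S.Finite) (hi : Inv S) :
    ∃ W : Finset G, (0 : G) ∈ W ∧ (∀ s ∈ S, ∀ t ∈ S, (∀ w ∈ W, s w = t w) → s = t) ∧
      ∀ h : G, ∃ B : Finset G, ∀ (a : G → Bool) (g : G),
        (∀ b ∈ B, ∃ s ∈ S, Mt W a (g + b) s) →
          ∀ s ∈ S, Mt W a g s → Mt W a (g + h) (sh h s) := by
  classical
  obtain ⟨Gen, hGen⟩ := hfg.out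
  -- separating set
  have hsep : ∀ s t : G → Bool, ∃ d : G, s ≠ t → s d ≠ t d := by
    intro s t
    by_cases h : s = t
    · exact ⟨0, fun h' => absurd h h'⟩
    · obtain ⟨d, hd⟩ := Function.ne_iff.mp h
      exact ⟨d, fun _ => hd⟩
  choose δ hδ using hsep
  set F := hS.toFinset with hF
  set D : Finset G := insert 0 ((F ×ˢ F).image fun p => δ p.1 p.2) with hD
  have hDsep : ∀ s ∈ S, ∀ t ∈ S, (∀ w ∈ D, s w = t w) → s = t := by
    intro s hs t ht h
    by_contra hne
    refine hδ s t hne (h _ ?_)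
    rw [hD, Finset.mem_insert]
    right
    rw [Finset.mem_image]
    exact ⟨(s, t), by simp [hF, hs, ht], rfl⟩
  set W : Finset G := D ∪ Gen.biUnion (fun e => D.image fun d => e + d) with hW
  have hDW : ∀ d ∈ D, d ∈ W := fun d hd => Finset.mem_union_left _ hd
  have hEW : ∀ e ∈ Gen, ∀ d ∈ D, e + d ∈ W := by
    intro e he d hd
    refine Finset.mem_union_right _ ?_
    rw [Finset.mem_biUnion]
    exact ⟨e, he, Finset.mem_image_of_mem _ hd⟩
  have hWsep : ∀ s ∈ S, ∀ t ∈ S, (∀ w ∈ W, s w = t w) → s = t :=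
    fun s hs t ht h => hDsep s hs t ht fun d hd => h d (hDW d hd)
  refine ⟨W, hDW 0 (Finset.mem_insert_self _ _), hWsep, ?_⟩
  intro h
  have hh : h ∈ AddSubgroup.closure (Gen : Set G) := by rw [hGen]; trivial
  induction hh using AddSubgroup.closure_induction with
  | mem e he =>
    refine ⟨{e}, ?_⟩
    intro a g hb s hs hm
    obtain ⟨s', hs', hm'⟩ := hb e (Finset.mem_singleton_self _)
    have : s' = sh e s := by
      apply hDsep s' hs' _ (hi e s hs)
      intro d hd
      have h1 := hm' d (hDW d hd)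
      have h2 := hm (e + d) (hEW e he d hd)
      show s' d = s (d + e)
      rw [← h1, add_comm d e, ← h2, add_assoc]
    rw [← this]
    exact hm'
  | zero =>
    refine ⟨∅, ?_⟩
    intro a g _ s _ hm
    rw [add_zero, sh_zero]
    exact hm
  | add h h' _ _ ih ih' =>
    obtain ⟨B, hB⟩ := ih
    obtain ⟨B', hB'⟩ := ih'
    refine ⟨B ∪ B'.image (fun b => h + b), ?_⟩
    intro a g hb s hs hm
    have h1 := hB a g (fun b hbB => hb b (Finset.mem_union_left _ hbB)) s hs hm
    have h2 := hB' a (g + h) (fun b hbB => by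
      have := hb (h + b) (Finset.mem_union_right _ (Finset.mem_image_of_mem _ hbB))
      rwa [← add_assoc] at this) (sh h s) (hi h s hs) h1
    rw [← sh_add, add_comm h' h, add_assoc] at h2
    exact h2
  | neg h _ ih =>
    obtain ⟨B, hB⟩ := ih
    refine ⟨insert (-h) (B.image fun b => -h + b), ?_⟩
    intro a g hb s hs hm
    obtain ⟨s', hs', hm'⟩ := hb (-h) (Finset.mem_insert_self _ _)
    have h1 := hB a (g + -h) (fun b hbB => by
      have := hb (-h + b) (Finset.mem_insert_of_mem (Finset.mem_image_of_mem _ hbB))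
      rwa [← add_assoc] at this) s' hs' hm'
    have h2 : g + -h + h = g := by abel
    rw [h2] at h1
    have h3 : sh h s' = s := hWsep _ (hi h s' hs') s hs fun w hw => by
      rw [← h1 w hw, hm w hw]
    rw [← h3, sh_neg_sh]
    exact hm'

theorem mem_of_matched [AddGroup.FG G] (S : Set (G → Bool)) (W : Finset G)
    (h0 : (0 : G) ∈ W)
    (hW : ∀ h : G, ∃ B : Finset G, ∀ (a : G → Bool) (g : G),
        (∀ b ∈ B, ∃ s ∈ S, Mt W a (g + b) s) →
          ∀ s ∈ S, Mt W a g s → Mt W a (g + h) (sh h s))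
    (a : G → Bool) (ha : ∀ g, ∃ s ∈ S, Mt W a g s) : a ∈ S := by
  obtain ⟨s, hs, hm⟩ := ha 0
  have : a = s := by
    funext h
    obtain ⟨B, hB⟩ := hW h
    have h1 := hB a 0 (fun b _ => ha _) s hs hm 0 h0
    rw [zero_add, add_zero] at h1
    rw [h1]
    show s (0 + h) = s h
    rw [zero_add]
  rw [this]
  exact hs

omit [AddCommGroup G] in
/-- the set of configurations not matched at the origin is closed (and open) -/
theorem isClosed_unmatched (W : Finset G) (S : Set (G → Bool)) :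
    IsClosed {a : G → Bool | ¬ ∃ s ∈ S, ∀ w ∈ W, a w = s w} := by
  have : {a : G → Bool | ¬ ∃ s ∈ S, ∀ w ∈ W, a w = s w} =
      (⋃ s ∈ S, ⋂ w ∈ W, {a : G → Bool | a w = s w})ᶜ := by
    ext a
    simp
  rw [this, isClosed_compl_iff]
  refine isOpen_biUnion fun s _ => ?_
  refine isOpen_biInter_finset fun w _ => ?_
  have h1 : IsOpen ((fun a : G → Bool => a w) ⁻¹' {s w}) :=
    (isOpen_discrete ({s w} : Set Bool)).preimage (continuous_apply w)
  exact h1

theorem exists_minimal [AddGroup.FG G] (X : Set (G → Bool)) (hc : IsClosed X) (hi : Inv X)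
    (hinf : X.Infinite) :
    ∃ Y ⊆ X, Minimal (· ∈ {Y : Set (G → Bool) | IsClosed Y ∧ Inv Y ∧ Y.Infinite}) Y := by
  refine zorn_superset_nonempty _ ?_ X ⟨hc, hi, hinf⟩
  intro c hcS hch hne
  refine ⟨⋂₀ c, ⟨isClosed_sInter fun C hC => (hcS hC).1, ?_, ?_⟩, fun s hs =>
    Set.sInter_subset_of_mem hs⟩
  · intro g a ha C hC
    exact (hcS hC).2.1 g a (ha C hC)
  · by_contra hfin
    rw [Set.not_infinite] at hfin
    have hinv : Inv (⋂₀ c) := fun g a ha C hC => (hcS hC).2.1 g a (ha C hC)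
    obtain ⟨W, h0, _, hW⟩ := exists_window (⋂₀ c) hfin hinv
    set K : Set (Set (G → Bool)) :=
      (fun C => C ∩ {a : G → Bool | ¬ ∃ s ∈ ⋂₀ c, ∀ w ∈ W, a w = s w}) '' c with hK
    have hKne : (⋂₀ K).Nonempty := by
      have : Nonempty K := (hne.image _).to_subtype
      refine IsCompact.nonempty_sInter_of_directed_nonempty_isCompact_isClosed ?_ ?_ ?_ ?_
      · rintro _ ⟨C, hC, rfl⟩ _ ⟨C', hC', rfl⟩
        rcases hch.total hC hC' with h | h
        · exact ⟨_, ⟨C, hC, rfl⟩, subset_rfl, fun a ha => ⟨h ha.1, ha.2⟩⟩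
        · exact ⟨_, ⟨C', hC', rfl⟩, fun a ha => ⟨h ha.1, ha.2⟩, subset_rfl⟩
      · rintro _ ⟨C, hC, rfl⟩
        have hCinf := (hcS hC).2.2
        obtain ⟨a, haC, haZ⟩ : ∃ a ∈ C, a ∉ ⋂₀ c := by
          by_contra hcon
          push Not at hcon
          exact hCinf (hfin.subset hcon)
        have : ∃ g, ¬ ∃ s ∈ ⋂₀ c, Mt W a g s := by
          by_contra hcon
          push Not at hcon
          exact haZ (mem_of_matched _ W h0 hW a hcon)
        obtain ⟨g, hg⟩ := this
        refine ⟨sh g a, (hcS hC).2.1 g a haC, ?_⟩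
        rintro ⟨s, hs, hm⟩
        refine hg ⟨s, hs, fun w hw => ?_⟩
        rw [← hm w hw, add_comm]
        rfl
      · rintro _ ⟨C, hC, rfl⟩
        exact (((hcS hC).1.inter (isClosed_unmatched W _))).isCompact
      · rintro _ ⟨C, hC, rfl⟩
        exact ((hcS hC).1.inter (isClosed_unmatched W _))
    obtain ⟨a, ha⟩ := hKne
    obtain ⟨C0, hC0⟩ := hne
    have ha1 : a ∈ ⋂₀ c := fun C hC => (ha _ ⟨C, hC, rfl⟩).1
    exact (ha _ ⟨C0, hC0, rfl⟩).2 ⟨a, ha1, fun _ _ => rfl⟩

omit [AddCommGroup G] in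
theorem exists_isolated (Y : Set (G → Bool)) (hc : IsClosed Y) (hct : Y.Countable)
    (hne : Y.Nonempty) : ∃ x ∈ Y, ∃ U : Set (G → Bool), IsOpen U ∧ U ∩ Y = {x} := by
  have hcomp : CompactSpace Y := isCompact_iff_compactSpace.mp hc.isCompact
  have hcY : Countable Y := hct.to_subtype
  have hneY : Nonempty Y := hne.to_subtype
  obtain ⟨⟨x, hx⟩, hint⟩ := nonempty_interior_of_iUnion_of_closed (X := Y)
    (f := fun y : Y => ({y} : Set Y)) (fun y => isClosed_singleton) (by
      ext y; simp)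
  obtain ⟨y, hy⟩ := hint
  have hyx : y = ⟨x, hx⟩ := by
    have := interior_subset hy
    exact this
  subst hyx
  have hopen : IsOpen ({⟨x, hx⟩} : Set Y) := by
    have h1 : interior ({⟨x, hx⟩} : Set Y) = {⟨x, hx⟩} := by
      apply Set.Subset.antisymm interior_subset
      rintro z rfl
      exact hy
    rw [← h1]
    exact isOpen_interior
  obtain ⟨U, hU, hUe⟩ := isOpen_induced_iff.mp hopen
  refine ⟨x, hx, U, hU, ?_⟩
  ext z
  constructor
  · rintro ⟨hzU, hzY⟩
    have : (⟨z, hzY⟩ : Y) ∈ ((↑) : Y → (G → Bool)) ⁻¹' U := hzU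
    rw [hUe] at this
    exact congrArg Subtype.val this
  · rintro rfl
    refine ⟨?_, hx⟩
    have : (⟨z, hx⟩ : Y) ∈ ((↑) : Y → (G → Bool)) ⁻¹' U := by rw [hUe]; rfl
    exact this

/-- the structure theorem -/
theorem exists_asymptotic [AddGroup.FG G] (X : Set (G → Bool)) (hc : IsClosed X) (hi : Inv X)
    (hct : X.Countable) (hinf : X.Infinite) :
    ∃ x ∈ X, (Set.range fun g => sh g x).Infinite ∧ ∃ S : Set (G → Bool), S.Finite ∧ Inv S ∧
      ∀ W : Finset G, {y | (∃ g, y = sh g x) ∧ ¬ ∃ s ∈ S, ∀ w ∈ W, y w = s w}.Finite := by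
  obtain ⟨Y, hYX, hYm⟩ := exists_minimal X hc hi hinf
  obtain ⟨hYc, hYi, hYinf⟩ := hYm.1
  obtain ⟨x, hxY, U, hU, hUx⟩ := exists_isolated Y hYc (hct.mono hYX) hYinf.nonempty
  have hxU : x ∈ U := by
    have : x ∈ U ∩ Y := by rw [hUx]; rfl
    exact this.1
  set V : G → Set (G → Bool) := fun g => (sh (-g)) ⁻¹' U with hV
  have hVo : ∀ g, IsOpen (V g) := fun g => hU.preimage (continuous_sh (-g))
  have hVx : ∀ g, ∀ y ∈ Y, y ∈ V g → y = sh g x := by
    intro g y hy hyV
    have h1 : sh (-g) y ∈ U ∩ Y := ⟨hyV, hYi _ _ hy⟩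
    rw [hUx] at h1
    rw [← h1]
    exact (sh_sh_neg g y).symm
  have hVx' : ∀ g, sh g x ∈ V g := by
    intro g
    show sh (-g) (sh g x) ∈ U
    rw [sh_neg_sh]
    exact hxU
  set S : Set (G → Bool) := Y \ (Set.range fun g => sh g x) with hSdef
  have hSc : IsClosed S := by
    have : S = Y ∩ (⋃ g, V g)ᶜ := by
      ext y
      constructor
      · rintro ⟨hy, hn⟩
        refine ⟨hy, ?_⟩
        rw [Set.mem_compl_iff, Set.mem_iUnion]
        rintro ⟨g, hg⟩
        exact hn ⟨g, (hVx g y hy hg).symm⟩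
      · rintro ⟨hy, hn⟩
        refine ⟨hy, ?_⟩
        rintro ⟨g, rfl⟩
        exact hn (Set.mem_iUnion.mpr ⟨g, hVx' g⟩)
    rw [this]
    exact hYc.inter (isOpen_iUnion hVo).isClosed_compl
  have hSi : Inv S := by
    rintro g a ⟨haY, han⟩
    refine ⟨hYi g a haY, ?_⟩
    rintro ⟨g', hg'⟩
    refine han ⟨-g + g', ?_⟩
    show sh (-g + g') x = a
    rw [sh_add]
    have hg'' : sh g' x = sh g a := hg'
    rw [hg'', sh_neg_sh]
  have hSf : S.Finite := by
    by_contra hn
    have h1 : Y ≤ S := hYm.2 ⟨hSc, hSi, hn⟩ Set.sdiff_subset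
    exact (h1 hxY).2 ⟨0, sh_zero x⟩
  refine ⟨x, hYX hxY, ?_, S, hSf, hSi, ?_⟩
  · intro hfin
    apply hYinf
    refine (hfin.union hSf).subset ?_
    intro y hy
    by_cases h : y ∈ Set.range fun g => sh g x
    · exact Or.inl h
    · exact Or.inr ⟨hy, h⟩
  · intro W
    set K : Set (G → Bool) := Y ∩ {a : G → Bool | ¬ ∃ s ∈ S, ∀ w ∈ W, a w = s w} with hK
    have hKc : IsCompact K := (hYc.inter (isClosed_unmatched W S)).isCompact
    have hcov : K ⊆ ⋃ g, V g := by
      rintro y ⟨hy, hn⟩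
      have : y ∈ Set.range fun g => sh g x := by
        by_contra h
        exact hn ⟨y, ⟨hy, h⟩, fun _ _ => rfl⟩
      obtain ⟨g, rfl⟩ := this
      exact Set.mem_iUnion.mpr ⟨g, hVx' g⟩
    obtain ⟨t, ht⟩ := hKc.elim_finite_subcover V hVo hcov
    refine ((t.finite_toSet.image fun g => sh g x)).subset ?_
    rintro y ⟨⟨g, rfl⟩, hn⟩
    have hyK : sh g x ∈ K := ⟨hYi g x hxY, hn⟩
    have := ht hyK
    rw [Set.mem_iUnion₂] at this
    obtain ⟨g', hg', hgV⟩ := this
    exact ⟨g', hg', (hVx g' _ hyK.1 hgV).symm⟩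

end TilDich
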