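import Mathlib

namespace TilDich

open Filter Topology

abbrev Eu (d : ℕ) := EuclideanSpace ℝ (Fin d)

/-- closed unit cube with integer corner `f` -/
def cub {d : ℕ} (f : Fin d → ℤ) : Set (Eu d) := {x | ∀ i, (f i : ℝ) ≤ x i ∧ x i ≤ f i + 1}

/-- the polycube with cells `F` -/
def body {d : ℕ} (F : Finset (Fin d → ℤ)) : Set (Eu d) := ⋃ f ∈ F, cub f

/-- translate of the polycube -/
def tile {d : ℕ} (F : Finset (Fin d → ℤ)) (v : Eu d) : Set (Eu d) := (fun x => x + v) '' body F

noncomputable def fl {d : ℕ} (x : Eu d) : Fin d → ℤ := fun i => ⌊x i⌋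

/-- half open exact cover -/
def HO {d : ℕ} (F : Finset (Fin d → ℤ)) (P : Set (Eu d)) : Prop :=
  ∀ x : Eu d, ∃! v, v ∈ P ∧ fl (x - v) ∈ F

/-- tiling by translates -/
def IsTr {d : ℕ} (F : Finset (Fin d → ℤ)) (𝒯 : Set (Set (Eu d))) : Prop :=
  (∀ A ∈ 𝒯, ∃ v : Eu d, A = (fun x => x + v) '' body F) ∧ ⋃₀ 𝒯 = Set.univ ∧
    𝒯.Pairwise fun A B => Disjoint (interior A) (interior B)

variable {d : ℕ} {F : Finset (Fin d → ℤ)}

theorem mem_tile {x v : Eu d} :
    x ∈ tile F v ↔ ∃ f ∈ F, ∀ i, (f i : ℝ) ≤ x i - v i ∧ x i - v i ≤ f i + 1 := by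
  constructor
  · rintro ⟨y, hy, rfl⟩
    simp only [body, Set.mem_iUnion] at hy
    obtain ⟨f, hf, hy⟩ := hy
    refine ⟨f, hf, fun i => ?_⟩
    have := hy i
    simpa using this
  · rintro ⟨f, hf, h⟩
    refine ⟨x - v, ?_, by simp⟩
    simp only [body, Set.mem_iUnion]
    exact ⟨f, hf, fun i => by simpa using h i⟩

theorem tile_inj (hF : F.Nonempty) {v w : Eu d} (h : tile F v = tile F w) : v = w := by
  have key : ∀ {v w : Eu d}, tile F v = tile F w → ∀ i, w i ≤ v i := by
    intro v w h i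
    obtain ⟨g, hg, hmin⟩ := Finset.exists_min_image F (fun f => f i) hF
    have h1 : v + WithLp.toLp 2 (fun j => (g j : ℝ)) ∈ tile F v := by
      rw [mem_tile]
      exact ⟨g, hg, fun j => by simp⟩
    rw [h, mem_tile] at h1
    obtain ⟨f, hf, h2⟩ := h1
    have h3 := (h2 i).1
    have h4 := hmin f hf
    have h5 : (g i : ℝ) ≤ f i := by exact_mod_cast h4
    simp at h3
    linarith
  ext i
  exact le_antisymm (key h.symm i) (key h i)

/-- the diagonal vector -/
noncomputable def dg (ε : ℝ) : Eu d := WithLp.toLp 2 (fun _ => ε)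

theorem dg_apply (ε : ℝ) (i : Fin d) : (dg ε : Eu d) i = ε := rfl

theorem ev_small (x v : Eu d) :
    ∀ᶠ ε in 𝓝[>] (0 : ℝ), ∀ i, 0 < ε ∧ ε < 1 - Int.fract (x i - v i) := by
  rw [Filter.eventually_all]
  intro i
  have h : 0 < 1 - Int.fract (x i - v i) := by
    have := Int.fract_lt_one (x i - v i)
    linarith
  exact Ioo_mem_nhdsGT h

theorem mem_interior_tile {x v : Eu d} {f : Fin d → ℤ} (hf : f ∈ F)
    (h : ∀ i, (f i : ℝ) < x i - v i ∧ x i - v i < f i + 1) : x ∈ interior (tile F v) := by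
  rw [mem_interior]
  refine ⟨{y | ∀ i, (f i : ℝ) < y i - v i ∧ y i - v i < f i + 1}, ?_, ?_, h⟩
  · intro y hy
    rw [mem_tile]
    exact ⟨f, hf, fun i => ⟨(hy i).1.le, (hy i).2.le⟩⟩
  · have : {y : Eu d | ∀ i, (f i : ℝ) < y i - v i ∧ y i - v i < f i + 1} =
        ⋂ i, {y : Eu d | (f i : ℝ) < y i - v i ∧ y i - v i < f i + 1} := by
      ext y; simp
    rw [this]
    refine isOpen_iInter_of_finite fun i => ?_
    have hc : Continuous fun y : Eu d => y i - v i := by fun_prop
    exact (isOpen_lt continuous_const hc).inter (isOpen_lt hc continuous_const)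

theorem shift_mem_interior {x v : Eu d} (h : fl (x - v) ∈ F) {ε : ℝ}
    (hε : ∀ i, 0 < ε ∧ ε < 1 - Int.fract (x i - v i)) : x + dg ε ∈ interior (tile F v) := by
  refine mem_interior_tile h fun i => ?_
  have h1 : (fl (x - v) i : ℝ) = (x i - v i) - Int.fract (x i - v i) := by
    have := Int.self_sub_fract (x i - v i)
    rw [this]
    rfl
  have h2 : (x + dg ε : Eu d) i = x i + ε := rfl
  have h3 := Int.fract_nonneg (x i - v i)
  rw [h1, h2]
  constructor <;> linarith [hε i]

theorem ho_of_tr (hF : F.Nonempty) {𝒯 : Set (Set (Eu d))} (h : IsTr F 𝒯) :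
    HO F {v | tile F v ∈ 𝒯} := by
  obtain ⟨h1, h2, h3⟩ := h
  -- uniqueness
  have huniq : ∀ x v w : Eu d, tile F v ∈ 𝒯 → tile F w ∈ 𝒯 → fl (x - v) ∈ F → fl (x - w) ∈ F →
      v = w := by
    intro x v w hv hw hxv hxw
    by_contra hne
    have hne' : tile F v ≠ tile F w := fun h => hne (tile_inj hF h)
    have hd := h3 hv hw hne'
    obtain ⟨ε, he1, he2⟩ := ((ev_small x v).and (ev_small x w)).exists
    exact Set.disjoint_left.mp hd (shift_mem_interior hxv he1) (shift_mem_interior hxw he2)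
  intro x
  obtain ⟨f₀, hf₀⟩ := hF
  -- floors are injective on positions
  have hinj : Set.InjOn (fl : Eu d → _) {v : Eu d | tile F v ∈ 𝒯} := by
    intro v hv w hw hvw
    set x' : Eu d := WithLp.toLp 2 (fun i => (f₀ i : ℝ) + max (v i) (w i)) with hx'
    have hx'i : ∀ i, x' i = (f₀ i : ℝ) + max (v i) (w i) := fun i => rfl
    have hfi : ∀ i, ⌊v i⌋ = ⌊w i⌋ := fun i => congrFun hvw i
    have hlt : ∀ i, v i < w i + 1 ∧ w i < v i + 1 := by
      intro i
      have a1 := Int.floor_le (v i)
      have a2 := Int.lt_floor_add_one (v i)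
      have a3 := Int.floor_le (w i)
      have a4 := Int.lt_floor_add_one (w i)
      rw [hfi i] at a1 a2
      constructor <;> linarith
    refine huniq x' v w hv hw ?_ ?_
    · have : fl (x' - v) = f₀ := by
        funext i
        show ⌊x' i - v i⌋ = f₀ i
        rw [Int.floor_eq_iff, hx'i]
        rcases le_total (v i) (w i) with hh | hh
        · rw [max_eq_right hh]; constructor <;> linarith [hlt i]
        · rw [max_eq_left hh]; constructor <;> linarith [hlt i]
      rw [this]; exact hf₀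
    · have : fl (x' - w) = f₀ := by
        funext i
        show ⌊x' i - w i⌋ = f₀ i
        rw [Int.floor_eq_iff, hx'i]
        rcases le_total (v i) (w i) with hh | hh
        · rw [max_eq_right hh]; constructor <;> linarith [hlt i]
        · rw [max_eq_left hh]; constructor <;> linarith [hlt i]
      rw [this]; exact hf₀
  have hex : ∃ v, tile F v ∈ 𝒯 ∧ fl (x - v) ∈ F := by
    by_contra hcon
    push Not at hcon
    set V : Set (Eu d) := {v | tile F v ∈ 𝒯 ∧ ∃ f ∈ F, ∀ i, (f i : ℝ) ≤ x i + 1 - v i ∧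
      x i - v i ≤ f i + 1} with hV
    have hVfin : V.Finite := by
      have himg : (fl '' V).Finite := by
        have : fl '' V ⊆ ⋃ f ∈ F, Set.Icc (fun i => ⌊x i⌋ - f i - 1) (fun i => ⌊x i⌋ - f i + 2) := by
          rintro _ ⟨v, ⟨hv, f, hf, hb⟩, rfl⟩
          simp only [Set.mem_iUnion]
          refine ⟨f, hf, ?_⟩
          rw [Set.mem_Icc]
          constructor
          · intro i
            show ⌊x i⌋ - f i - 1 ≤ ⌊v i⌋
            rw [Int.le_floor]
            push_cast
            have := Int.floor_le (x i)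
            linarith [(hb i).2]
          · intro i
            show ⌊v i⌋ ≤ ⌊x i⌋ - f i + 2
            have a1 := Int.floor_le (v i)
            have a2 := Int.lt_floor_add_one (x i)
            have : (⌊v i⌋ : ℝ) < ⌊x i⌋ - f i + 2 := by linarith [(hb i).1]
            exact_mod_cast this.le
        refine Set.Finite.subset ?_ this
        exact Set.Finite.biUnion F.finite_toSet fun f _ => Set.finite_Icc _ _
      exact Set.Finite.of_finite_image himg (hinj.mono fun v hv => hv.1)
    have hev : ∀ᶠ ε in 𝓝[>] (0 : ℝ), ∀ v ∈ V, ∀ f ∈ F,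
        ¬ ∀ i, (f i : ℝ) ≤ x i + ε - v i ∧ x i + ε - v i ≤ f i + 1 := by
      rw [Filter.eventually_all_finite hVfin]
      intro v hv
      rw [Filter.eventually_all_finset]
      intro f hf
      have hno : ¬ ∀ i, (f i : ℝ) ≤ x i - v i ∧ x i - v i < f i + 1 := by
        intro hall
        refine hcon v hv.1 ?_
        have : fl (x - v) = f := by
          funext i
          show ⌊x i - v i⌋ = f i
          rw [Int.floor_eq_iff]
          exact hall i
        rw [this]; exact hf
      push Not at hno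
      obtain ⟨i, hi⟩ := hno
      by_cases hc : (f i : ℝ) ≤ x i - v i
      · have h4 := hi hc
        filter_upwards [self_mem_nhdsWithin] with ε hε hall
        have := (hall i).2
        have hε' : 0 < ε := hε
        linarith
      · push Not at hc
        have : 0 < (f i : ℝ) - (x i - v i) := by linarith
        filter_upwards [Ioo_mem_nhdsGT this] with ε hε hall
        have := (hall i).1
        linarith [hε.2]
    obtain ⟨ε, hε1, hε2⟩ := (hev.and (Ioo_mem_nhdsGT (zero_lt_one' ℝ))).exists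
    have hx : x + dg ε ∈ ⋃₀ 𝒯 := by rw [h2]; trivial
    obtain ⟨A, hA, hxA⟩ := hx
    obtain ⟨v, rfl⟩ := h1 A hA
    have hxA' : x + dg ε ∈ tile F v := hxA
    rw [mem_tile] at hxA'
    obtain ⟨f, hf, hfx⟩ := hxA'
    have hfx' : ∀ i, (f i : ℝ) ≤ x i + ε - v i ∧ x i + ε - v i ≤ f i + 1 := fun i => hfx i
    refine hε1 v ⟨hA, f, hf, fun i => ?_⟩ f hf hfx'
    have := hfx' i
    constructor <;> linarith [hε2.1, hε2.2]
  obtain ⟨v, hv, hvx⟩ := hex
  exact ⟨v, ⟨hv, hvx⟩, fun w ⟨hw, hwx⟩ => huniq x w v hw hv hwx hvx⟩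

theorem tr_of_ho {P : Set (Eu d)} (h : HO F P) : IsTr F (tile F '' P) := by
  refine ⟨?_, ?_, ?_⟩
  · rintro _ ⟨v, _, rfl⟩
    exact ⟨v, rfl⟩
  · rw [Set.eq_univ_iff_forall]
    intro x
    obtain ⟨v, ⟨hv, hx⟩, _⟩ := h x
    refine ⟨tile F v, ⟨v, hv, rfl⟩, ?_⟩
    rw [mem_tile]
    refine ⟨_, hx, fun i => ?_⟩
    exact ⟨Int.floor_le (x i - v i), (Int.lt_floor_add_one (x i - v i)).le⟩
  · rintro _ ⟨v, hv, rfl⟩ _ ⟨w, hw, rfl⟩ hne
    rw [Set.disjoint_left]
    intro x hxv hxw
    apply hne
    have hcont : Tendsto (fun ε : ℝ => x + dg ε) (𝓝[>] 0) (𝓝 x) := by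
      have h1 : Continuous fun ε : ℝ => x + (dg ε : Eu d) := by
        refine continuous_const.add ?_
        have : Continuous fun ε : ℝ => (fun _ : Fin d => ε) := by fun_prop
        exact (PiLp.continuous_toLp 2 _).comp this
      have h2 := h1.tendsto 0
      have h3 : x + (dg 0 : Eu d) = x := by
        ext i
        show x i + 0 = x i
        rw [add_zero]
      rw [h3] at h2
      exact h2.mono_left nhdsWithin_le_nhds
    have e1 := hcont.eventually (isOpen_interior.mem_nhds hxv)
    have e2 := hcont.eventually (isOpen_interior.mem_nhds hxw)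
    obtain ⟨ε, ⟨he1, he2⟩, he3, he4⟩ :=
      ((e1.and e2).and ((ev_small x v).and (ev_small x w))).exists
    have key : ∀ v : Eu d, x + dg ε ∈ interior (tile F v) →
        (∀ i, 0 < ε ∧ ε < 1 - Int.fract (x i - v i)) → fl (x + dg ε - v) ∈ F := by
      intro v hm hs
      have hm' := interior_subset hm
      rw [mem_tile] at hm'
      obtain ⟨f, hf, hfx⟩ := hm'
      have : fl (x + dg ε - v) = f := by
        funext i
        show ⌊x i + ε - v i⌋ = f i
        have a1 : (f i : ℝ) ≤ x i + ε - v i ∧ x i + ε - v i ≤ f i + 1 := hfx i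
        rw [Int.floor_eq_iff]
        refine ⟨a1.1, lt_of_le_of_ne a1.2 ?_⟩
        intro heq
        have a2 : Int.fract (x i + ε - v i) = Int.fract (x i - v i) + ε := by
          rw [Int.fract_eq_iff]
          have := Int.fract_nonneg (x i - v i)
          refine ⟨by linarith [(hs i).1], by linarith [(hs i).2], ⌊x i - v i⌋, ?_⟩
          have := Int.self_sub_fract (x i - v i)
          linarith
        rw [heq] at a2
        have a3 : Int.fract ((f i : ℝ) + 1) = 0 := by
          have : ((f i : ℝ) + 1) = ((f i + 1 : ℤ) : ℝ) := by push_cast; ring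
          rw [this, Int.fract_intCast]
        rw [a3] at a2
        have := Int.fract_nonneg (x i - v i)
        linarith [(hs i).1]
      rw [this]; exact hf
    obtain ⟨u, _, hu⟩ := h (x + dg ε)
    rw [hu v ⟨hv, key v he1 he3⟩, hu w ⟨hw, key w he2 he4⟩]

end TilDich
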