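import Pool.Agent.TilDich.Geo

namespace TilDich

variable {d : ℕ} {F : Finset (Fin d → ℤ)}

theorem blocks (f : ℝ → ℝ) (h1 : ∀ s, f s ≤ s) (h2 : ∀ s, s < f s + 1)
    (h3 : ∀ s s', f s ≤ s' → s' < f s + 1 → f s' = f s) (s s' : ℝ) (h : s ≤ s') :
    ∃ n : ℕ, f s' = f s + n := by
  have hstep : ∀ s, f (f s + 1) = f s + 1 := by
    intro s
    by_contra hne
    have hlt : f (f s + 1) < f s + 1 := lt_of_le_of_ne (h1 _) hne
    have ha : f (max (f (f s + 1)) (f s)) = f (f s + 1) := by
      refine h3 _ _ (le_max_left _ _) ?_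
      rw [max_lt_iff]
      have := h2 (f s + 1)
      constructor <;> linarith
    have hb : f (max (f (f s + 1)) (f s)) = f s := by
      refine h3 _ _ (le_max_right _ _) ?_
      rw [max_lt_iff]
      constructor <;> linarith
    rw [ha] at hb
    have := h2 (f s + 1)
    rw [hb] at this
    exact lt_irrefl _ this
  have hn : ∀ n : ℕ, f (f s + n) = f s + n := by
    intro n
    induction n with
    | zero =>
      have : f s + ((0 : ℕ) : ℝ) = f s := by simp
      rw [this]
      exact h3 s _ le_rfl (by linarith)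
    | succ n ih =>
      have := hstep (f s + n)
      rw [ih] at this
      have e : f s + ((n + 1 : ℕ) : ℝ) = f s + n + 1 := by push_cast; ring
      rw [e]
      exact this
  have h0 : 0 ≤ s' - f s := by linarith [h1 s]
  refine ⟨⌊s' - f s⌋₊, ?_⟩
  have h4 := hn ⌊s' - f s⌋₊
  have h5 : f s' = f (f s + ⌊s' - f s⌋₊) := by
    refine h3 _ _ ?_ ?_
    · rw [h4]
      have := Nat.floor_le h0
      linarith
    · rw [h4]
      have := Nat.lt_floor_add_one (s' - f s)
      linarith
  rw [h5, h4]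

/-- unit vector -/
noncomputable def ev (i : Fin d) (s : ℝ) : Eu d := EuclideanSpace.single i s

theorem ev_same (i : Fin d) (s : ℝ) : (ev i s : Eu d) i = s := by simp [ev]

theorem ev_ne {i j : Fin d} (h : j ≠ i) (s : ℝ) : (ev i s : Eu d) j = 0 := by simp [ev, h]

theorem class_line {P : Set (Eu d)} (hP : HO F P) (i : Fin d) (x : Eu d) (s : ℝ) (hs : 0 ≤ s)
    (v w : Eu d) (hv : v ∈ P) (hvx : fl (x - v) ∈ F) (hw : w ∈ P) (hwx : fl (x + ev i s - w) ∈ F) :
    Int.fract (v i) = Int.fract (w i) := by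
  choose t ht using fun x => (hP x).exists
  have hu : ∀ y v, v ∈ P → fl (y - v) ∈ F → t y = v := fun y v hv hy =>
    (hP y).unique (ht y) ⟨hv, hy⟩
  set f : ℝ → ℝ := fun s => t (x + ev i s) i + ⌊x i + s - t (x + ev i s) i⌋ - x i with hf
  have h1 : ∀ s, f s ≤ s := by
    intro s
    have := Int.floor_le (x i + s - t (x + ev i s) i)
    show t (x + ev i s) i + ⌊x i + s - t (x + ev i s) i⌋ - x i ≤ s
    linarith
  have h2 : ∀ s, s < f s + 1 := by
    intro s
    have := Int.lt_floor_add_one (x i + s - t (x + ev i s) i)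
    show s < t (x + ev i s) i + ⌊x i + s - t (x + ev i s) i⌋ - x i + 1
    linarith
  have h3 : ∀ s s', f s ≤ s' → s' < f s + 1 → f s' = f s := by
    intro s s' ha hb
    have hfl : ⌊x i + s' - t (x + ev i s) i⌋ = ⌊x i + s - t (x + ev i s) i⌋ := by
      rw [Int.floor_eq_iff]
      have ha' : t (x + ev i s) i + ⌊x i + s - t (x + ev i s) i⌋ - x i ≤ s' := ha
      have hb' : s' < t (x + ev i s) i + ⌊x i + s - t (x + ev i s) i⌋ - x i + 1 := hb
      constructor <;> linarith
    have he : t (x + ev i s') = t (x + ev i s) := by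
      refine hu _ _ (ht _).1 ?_
      have : fl (x + ev i s' - t (x + ev i s)) = fl (x + ev i s - t (x + ev i s)) := by
        funext j
        show ⌊x j + ev i s' j - t (x + ev i s) j⌋ = ⌊x j + ev i s j - t (x + ev i s) j⌋
        by_cases hj : j = i
        · subst hj
          rw [ev_same, ev_same]
          exact hfl
        · rw [ev_ne hj, ev_ne hj]
      rw [this]
      exact (ht _).2
    show t (x + ev i s') i + ⌊x i + s' - t (x + ev i s') i⌋ - x i =
      t (x + ev i s) i + ⌊x i + s - t (x + ev i s) i⌋ - x i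
    rw [he, hfl]
  obtain ⟨n, hn⟩ := blocks f h1 h2 h3 0 s hs
  have e0 : t (x + ev i 0) = v := by
    refine hu _ _ hv ?_
    have : x + ev i 0 = x := by
      ext j
      by_cases hj : j = i
      · subst hj
        show x j + (ev j 0 : Eu d) j = x j
        rw [ev_same, add_zero]
      · show x j + (ev i 0 : Eu d) j = x j
        rw [ev_ne hj, add_zero]
    rw [this]; exact hvx
  have e1 : t (x + ev i s) = w := hu _ _ hw hwx
  have h4 : t (x + ev i s) i + ⌊x i + s - t (x + ev i s) i⌋ - x i =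
      t (x + ev i 0) i + ⌊x i + 0 - t (x + ev i 0) i⌋ - x i + n := hn
  rw [e0, e1] at h4
  rw [Int.fract_eq_fract]
  refine ⟨⌊x i + s - w i⌋ - ⌊x i + 0 - v i⌋ - n, ?_⟩
  push_cast
  linarith

theorem class_line' {P : Set (Eu d)} (hP : HO F P) (i : Fin d) (x : Eu d) (s s' : ℝ)
    (v w : Eu d) (hv : v ∈ P) (hvx : fl (x + ev i s - v) ∈ F) (hw : w ∈ P)
    (hwx : fl (x + ev i s' - w) ∈ F) :
    Int.fract (v i) = Int.fract (w i) := by
  have e : ∀ s s' : ℝ, x + ev i s + ev i (s' - s) = x + ev i s' := by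
    intro s s'
    ext j
    show x j + (ev i s : Eu d) j + (ev i (s' - s) : Eu d) j = x j + (ev i s' : Eu d) j
    by_cases hj : j = i
    · subst hj
      rw [ev_same, ev_same, ev_same]; ring
    · rw [ev_ne hj, ev_ne hj, ev_ne hj, add_zero]
  rcases le_total s s' with h | h
  · exact class_line hP i (x + ev i s) (s' - s) (by linarith) v w hv hvx hw (by rw [e]; exact hwx)
  · exact (class_line hP i (x + ev i s') (s - s') (by linarith) w v hw hwx hv
      (by rw [e]; exact hvx)).symm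

theorem slide {P : Set (Eu d)} (hP : HO F P) (i : Fin d) (τ : ℝ → ℝ) :
    HO F {w | ∃ v ∈ P, w = v + ev i (τ (Int.fract (v i)))} := by
  have hneg : ∀ (x v : Eu d) (r : ℝ), x - (v + ev i r) = x + ev i (-r) - v := by
    intro x v r
    have : (ev i (-r) : Eu d) = - ev i r := by
      ext j
      show (ev i (-r) : Eu d) j = -((ev i r : Eu d) j)
      by_cases hj : j = i
      · subst hj; rw [ev_same, ev_same]
      · rw [ev_ne hj, ev_ne hj, neg_zero]
    rw [this]; abel
  have h0 : ∀ x : Eu d, x + ev i 0 = x := by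
    intro x
    ext j
    show x j + (ev i 0 : Eu d) j = x j
    by_cases hj : j = i
    · subst hj
      rw [ev_same, add_zero]
    · rw [ev_ne hj, add_zero]
  intro x
  obtain ⟨v₀, ⟨hv₀, hx₀⟩, _⟩ := hP x
  set c := Int.fract (v₀ i) with hc
  obtain ⟨v, ⟨hv, hvx⟩, hvu⟩ := hP (x + ev i (-τ c))
  have hcv : Int.fract (v i) = c :=
    (class_line' hP i x 0 (-τ c) v₀ v hv₀ (by rw [h0]; exact hx₀) hv hvx).symm
  refine ⟨v + ev i (τ (Int.fract (v i))), ⟨⟨v, hv, rfl⟩, ?_⟩, ?_⟩
  · rw [hcv, hneg]; exact hvx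
  · rintro _ ⟨⟨w, hw, rfl⟩, hwx⟩
    rw [hneg] at hwx
    have hcw : Int.fract (w i) = c :=
      (class_line' hP i x 0 (-τ (Int.fract (w i))) v₀ w hv₀ (by rw [h0]; exact hx₀) hw hwx).symm
    rw [hcw] at hwx
    have : w = v := hvu w ⟨hw, hwx⟩
    rw [this]

theorem countable_ho (hF : F.Nonempty) {P : Set (Eu d)} (hP : HO F P) : P.Countable := by
  obtain ⟨f₀, hf₀⟩ := hF
  have hq : ∀ v : Eu d, ∃ q : Fin d → ℚ, ∀ i, (v i + f₀ i : ℝ) < q i ∧ (q i : ℝ) < v i + f₀ i + 1 := by
    intro v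
    have : ∀ i, ∃ q : ℚ, (v i + f₀ i : ℝ) < q ∧ (q : ℝ) < v i + f₀ i + 1 := fun i =>
      exists_rat_btwn (by linarith)
    choose q hq using this
    exact ⟨q, hq⟩
  choose q hq using hq
  have hinj : Set.InjOn q P := by
    intro v hv w hw hvw
    set x : Eu d := WithLp.toLp 2 (fun i => (q v i : ℝ)) with hx
    have key : ∀ v', q v' = q v → fl (x - v') = f₀ := by
      intro v' hv'
      funext i
      show ⌊(q v i : ℝ) - v' i⌋ = f₀ i
      rw [← hv', Int.floor_eq_iff]
      have := hq v' i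
      constructor <;> linarith [this.1, this.2]
    exact (hP x).unique ⟨hv, by rw [key v rfl]; exact hf₀⟩
      ⟨hw, by rw [key w hvw.symm]; exact hf₀⟩
  exact (Set.countable_of_injective_of_countable_image hinj (Set.to_countable _))

theorem ho_nonempty {P : Set (Eu d)} (hP : HO F P) : P.Nonempty := by
  obtain ⟨v, ⟨hv, _⟩, _⟩ := hP 0
  exact ⟨v, hv⟩

theorem ho_translate {P : Set (Eu d)} (hP : HO F P) (c : Eu d) : HO F ((fun v => v + c) '' P) := by
  intro x
  obtain ⟨v, ⟨hv, hvx⟩, hvu⟩ := hP (x - c)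
  refine ⟨v + c, ⟨⟨v, hv, rfl⟩, ?_⟩, ?_⟩
  · have : x - (v + c) = x - c - v := by abel
    rw [this]; exact hvx
  · rintro _ ⟨⟨w, hw, rfl⟩, hwx⟩
    have : x - (w + c) = x - c - w := by abel
    simp only [this] at hwx
    rw [hvu w ⟨hw, hwx⟩]

/-- an isometry mapping a tiling to a tiling comes from an isometry on the positions -/
theorem exists_isom (hF : F.Nonempty) {𝒯 𝒯' : Set (Set (Eu d))} (h : IsTr F 𝒯) (h' : IsTr F 𝒯')
    (g : Eu d ≃ᵢ Eu d) (hg : 𝒯' = (fun A => g '' A) '' 𝒯) :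
    ∃ k : Eu d ≃ᵢ Eu d, {v | tile F v ∈ 𝒯'} = k '' {v | tile F v ∈ 𝒯} := by
  set A := g.toRealAffineIsometryEquiv with hA
  set L := A.linearIsometryEquiv with hL
  have hgA : ∀ x v : Eu d, g (x + v) = L x + g v := by
    intro x v
    have := A.map_vadd v x
    exact this
  have himg : ∀ v, g '' tile F v = (fun y => y + g v) '' (L '' body F) := by
    intro v
    rw [tile, Set.image_image, Set.image_image]
    exact Set.image_congr fun x _ => hgA x v
  have hmem : ∀ v, tile F v ∈ 𝒯 → ∃ w, g '' tile F v = tile F w := by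
    intro v hv
    have : g '' tile F v ∈ 𝒯' := by rw [hg]; exact ⟨_, hv, rfl⟩
    obtain ⟨w, hw⟩ := h'.1 _ this
    exact ⟨w, hw⟩
  have hLT : ∀ v w, g '' tile F v = tile F w → L '' body F = tile F (w - g v) := by
    intro v w hvw
    rw [himg] at hvw
    have h1 := congrArg (fun S => (fun y => y - g v) '' S) hvw
    simp only [tile, Set.image_image] at h1 ⊢
    have h2 : (fun x => L x + g v - g v) = (fun x => L x) := by
      funext x; abel
    have h3 : (fun x : Eu d => x + w - g v) = (fun x => x + (w - g v)) := by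
      funext x; abel
    rw [h2, h3] at h1
    exact h1
  obtain ⟨v₀, hv₀⟩ := ho_nonempty (ho_of_tr hF h)
  obtain ⟨w₀, hw₀⟩ := hmem v₀ hv₀
  set c := w₀ - g v₀ with hc
  have hall : ∀ v w, g '' tile F v = tile F w → w = g v + c := by
    intro v w hvw
    have h1 := hLT v w hvw
    rw [hLT v₀ w₀ hw₀] at h1
    have h2 := tile_inj hF h1
    rw [hc, h2]; abel
  refine ⟨g.trans (IsometryEquiv.addRight c), ?_⟩
  ext w
  constructor
  · intro hw
    have hw' : tile F w ∈ 𝒯' := hw
    rw [hg] at hw'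
    obtain ⟨B, hB, hBw⟩ := hw'
    obtain ⟨v, rfl⟩ := h.1 B hB
    refine ⟨v, hB, ?_⟩
    exact (hall v w hBw).symm
  · rintro ⟨v, hv, rfl⟩
    obtain ⟨w, hw⟩ := hmem v hv
    have : (g.trans (IsometryEquiv.addRight c)) v = w := (hall v w hw).symm
    rw [this]
    show tile F w ∈ 𝒯'
    rw [← hw, hg]
    exact ⟨_, hv, rfl⟩

end TilDich
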