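import Pool.Agent.TilDich.Geo2
import Pool.Agent.TilDich.Count

namespace TilDich

variable {d : ℕ} {F : Finset (Fin d → ℤ)}

/-- integer points -/
noncomputable def zz (n : Fin d → ℤ) : Eu d := WithLp.toLp 2 (fun i => (n i : ℝ))

theorem zz_inj {n m : Fin d → ℤ} (h : zz n = zz m) : n = m := by
  funext i
  have : (zz n : Eu d) i = zz m i := by rw [h]
  exact_mod_cast (show ((n i : ℝ)) = m i from this)

/-- positions of an integer tiling -/
def Pz (a : (Fin d → ℤ) → Bool) : Set (Eu d) := {v | ∃ n, a n = true ∧ v = zz n}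

theorem zz_mem_Pz {a : (Fin d → ℤ) → Bool} {n : Fin d → ℤ} : zz n ∈ Pz a ↔ a n = true :=
  ⟨fun ⟨_, hm, h⟩ => by rw [zz_inj h]; exact hm, fun h => ⟨n, h, rfl⟩⟩

theorem fl_sub_zz (x : Eu d) (n : Fin d → ℤ) : fl (x - zz n) = fl x - n := by
  funext i
  show ⌊x i - (n i : ℝ)⌋ = ⌊x i⌋ - n i
  exact Int.floor_sub_intCast _ _

theorem tl_iff (a : (Fin d → ℤ) → Bool) :
    Tl F (fun f => f) a ↔ ∀ x : Fin d → ℤ, ∃! n, a n = true ∧ x - n ∈ F := by
  classical
  have key : ∀ x : Fin d → ℤ, ∑ f ∈ F, ind (a (x - f)) =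
      (F.filter fun f => a (x - f) = true).card := by
    intro x
    rw [Finset.card_filter]
    exact Finset.sum_congr rfl fun f _ => rfl
  constructor
  · intro h x
    have h1 := h x
    rw [key, Finset.card_eq_one] at h1
    obtain ⟨f, hf⟩ := h1
    have hf' : f ∈ F.filter fun f => a (x - f) = true := by rw [hf]; exact Finset.mem_singleton_self _
    rw [Finset.mem_filter] at hf'
    refine ⟨x - f, ⟨hf'.2, by simpa using hf'.1⟩, ?_⟩
    rintro m ⟨hm, hxm⟩
    have : x - m ∈ F.filter fun f => a (x - f) = true := by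
      rw [Finset.mem_filter]
      exact ⟨hxm, by simpa using hm⟩
    rw [hf, Finset.mem_singleton] at this
    rw [← this]; abel
  · intro h x
    rw [key, Finset.card_eq_one]
    obtain ⟨n, ⟨hn, hxn⟩, hu⟩ := h x
    refine ⟨x - n, ?_⟩
    ext f
    rw [Finset.mem_filter, Finset.mem_singleton]
    constructor
    · rintro ⟨hf, haf⟩
      have := hu (x - f) ⟨haf, by simpa using hf⟩
      rw [← this]; abel
    · rintro rfl
      exact ⟨hxn, by simpa using hn⟩

theorem ho_iff (a : (Fin d → ℤ) → Bool) : HO F (Pz a) ↔ Tl F (fun f => f) a := by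
  rw [tl_iff]
  constructor
  · intro h x
    obtain ⟨v, ⟨⟨n, hn, rfl⟩, hx⟩, hu⟩ := h (zz x)
    have hfx : fl (zz x) = x := by
      funext i
      exact Int.floor_intCast _
    rw [fl_sub_zz, hfx] at hx
    refine ⟨n, ⟨hn, hx⟩, ?_⟩
    rintro m ⟨hm, hxm⟩
    refine zz_inj (hu (zz m) ⟨⟨m, hm, rfl⟩, ?_⟩)
    rw [fl_sub_zz, hfx]; exact hxm
  · intro h x
    obtain ⟨n, ⟨hn, hxn⟩, hu⟩ := h (fl x)
    refine ⟨zz n, ⟨⟨n, hn, rfl⟩, by rw [fl_sub_zz]; exact hxn⟩, ?_⟩
    rintro _ ⟨⟨m, hm, rfl⟩, hxm⟩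
    rw [fl_sub_zz] at hxm
    rw [hu m ⟨hm, hxm⟩]

theorem exists_bound (F : Finset (Fin d → ℤ)) :
    ∃ C : ℝ, 0 ≤ C ∧ ∀ u : Eu d, fl u ∈ F → ‖u‖ ≤ C := by
  set K : ℝ := 1 + ∑ f ∈ F, ∑ i, |(f i : ℝ)| with hK
  have hK0 : 0 ≤ K := by
    have : 0 ≤ ∑ f ∈ F, ∑ i, |(f i : ℝ)| :=
      Finset.sum_nonneg fun _ _ => Finset.sum_nonneg fun _ _ => abs_nonneg _
    linarith
  refine ⟨Real.sqrt (∑ _i : Fin d, K ^ 2), Real.sqrt_nonneg _, ?_⟩
  intro u hu
  rw [EuclideanSpace.norm_eq]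
  refine Real.sqrt_le_sqrt (Finset.sum_le_sum fun i _ => ?_)
  have h1 : |(fl u i : ℝ)| ≤ ∑ f ∈ F, ∑ i, |(f i : ℝ)| := by
    calc |(fl u i : ℝ)| ≤ ∑ i, |(fl u i : ℝ)| :=
          Finset.single_le_sum (f := fun i => |(fl u i : ℝ)|) (fun _ _ => abs_nonneg _)
            (Finset.mem_univ i)
      _ ≤ ∑ f ∈ F, ∑ i, |(f i : ℝ)| :=
          Finset.single_le_sum (f := fun f => ∑ i, |((f : Fin d → ℤ) i : ℝ)|)
            (fun _ _ => Finset.sum_nonneg fun _ _ => abs_nonneg _) hu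
  have h2 : ‖u i‖ ≤ K := by
    rw [Real.norm_eq_abs]
    have h3 : u i = fl u i + Int.fract (u i) := (Int.floor_add_fract (u i)).symm
    rw [h3]
    calc |(fl u i : ℝ) + Int.fract (u i)| ≤ |(fl u i : ℝ)| + |Int.fract (u i)| := abs_add_le _ _
      _ ≤ K := by
        rw [abs_of_nonneg (Int.fract_nonneg (u i))]
        linarith [Int.fract_lt_one (u i)]
  exact pow_le_pow_left₀ (norm_nonneg _) h2 2

theorem rigid {P : Set (Eu d)} (hP : HO F P) :
    ∃ Q : Set (Eu d), Q.Finite ∧ Q ⊆ P ∧ ∀ h h' : Eu d ≃ᵢ Eu d, (∀ q ∈ Q, h q = h' q) → h = h' := by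
  obtain ⟨C, hC0, hC⟩ := exists_bound F
  choose t ht using fun x => (hP x).exists
  set R : ℝ := 2 * C * (d + 1) + 1 with hR
  have hd0 : (0 : ℝ) ≤ d := Nat.cast_nonneg d
  have hR0 : 0 < R := by positivity
  refine ⟨insert (t 0) (Set.range fun i : Fin d => t (EuclideanSpace.single i R)),
    (Set.finite_range _).insert _, ?_, ?_⟩
  · intro q hq
    rcases hq with rfl | ⟨i, rfl⟩
    · exact (ht _).1
    · exact (ht _).1
  · intro h h' hQ
    ext1 x
    set k : Eu d ≃ᵢ Eu d := h.trans h'.symm with hk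
    have hkq : ∀ q ∈ insert (t 0) (Set.range fun i : Fin d => t (EuclideanSpace.single i R)),
        k q = q := by
      intro q hq
      show h'.symm (h q) = q
      rw [hQ q hq, IsometryEquiv.symm_apply_apply]
    set y : Eu d := x - k x with hy
    have hin : ∀ q, k q = q → 2 * inner ℝ y q = ‖x‖ ^ 2 - ‖k x‖ ^ 2 := by
      intro q hq
      have h1 : ‖x - q‖ = ‖k x - q‖ := by
        rw [← dist_eq_norm, ← dist_eq_norm]
        conv_rhs => rw [← hq]
        exact (k.dist_eq x q).symm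
      have h2 : ‖x - q‖ ^ 2 = ‖k x - q‖ ^ 2 := by rw [h1]
      rw [norm_sub_sq_real, norm_sub_sq_real] at h2
      rw [hy, inner_sub_left]
      linarith
    have hco : ∀ i, R ^ 2 * (y i) ^ 2 ≤ (2 * C) ^ 2 * ‖y‖ ^ 2 := by
      intro i
      have h1 := hin (t 0) (hkq _ (Set.mem_insert _ _))
      have h2 := hin (t (EuclideanSpace.single i R))
        (hkq _ (Set.mem_insert_of_mem _ ⟨i, rfl⟩))
      have h3 : inner ℝ y (t (EuclideanSpace.single i R)) = inner ℝ y (t 0) := by linarith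
      have h4 : inner ℝ y (EuclideanSpace.single i R : Eu d) =
          inner ℝ y ((EuclideanSpace.single i R - t (EuclideanSpace.single i R)) - (0 - t 0)) := by
        rw [inner_sub_right, inner_sub_right, inner_sub_right, h3, inner_zero_right]
        ring
      have h5 : |inner ℝ y (EuclideanSpace.single i R : Eu d)| ≤ ‖y‖ * (2 * C) := by
        rw [h4]
        refine (abs_real_inner_le_norm _ _).trans ?_
        refine mul_le_mul_of_nonneg_left ?_ (norm_nonneg _)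
        refine (norm_sub_le _ _).trans ?_
        have a1 := hC _ (ht (EuclideanSpace.single i R)).2
        have a2 := hC _ (ht (0 : Eu d)).2
        linarith
      have h6 : inner ℝ y (EuclideanSpace.single i R : Eu d) = R * y i := by
        rw [EuclideanSpace.inner_single_right]
        simp
      rw [h6] at h5
      calc R ^ 2 * (y i) ^ 2 = |R * y i| ^ 2 := by rw [sq_abs]; ring
        _ ≤ (‖y‖ * (2 * C)) ^ 2 := pow_le_pow_left₀ (abs_nonneg _) h5 2
        _ = (2 * C) ^ 2 * ‖y‖ ^ 2 := by ring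
    have hsum : R ^ 2 * ‖y‖ ^ 2 ≤ d * ((2 * C) ^ 2 * ‖y‖ ^ 2) := by
      rw [EuclideanSpace.real_norm_sq_eq, Finset.mul_sum]
      calc ∑ i, R ^ 2 * (y i) ^ 2 ≤ ∑ _i : Fin d, (2 * C) ^ 2 * ‖y‖ ^ 2 :=
            Finset.sum_le_sum fun i _ => hco i
        _ = d * ((2 * C) ^ 2 * ∑ i, y i ^ 2) := by
            rw [← EuclideanSpace.real_norm_sq_eq]
            simp
    have hgap : d * (2 * C) ^ 2 < R ^ 2 := by
      rw [hR]
      nlinarith [mul_nonneg hC0 hd0, mul_nonneg (mul_nonneg hC0 hC0) hd0,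
        mul_nonneg (mul_nonneg hC0 hC0) (mul_nonneg hd0 hd0)]
    have hy0 : ‖y‖ ^ 2 = 0 := by
      by_contra hne
      have hpos : 0 < ‖y‖ ^ 2 := lt_of_le_of_ne (sq_nonneg _) (Ne.symm hne)
      have := mul_lt_mul_of_pos_right hgap hpos
      linarith
    have hy1 : y = 0 := by
      rw [← norm_eq_zero]
      exact pow_eq_zero_iff (two_ne_zero) |>.mp hy0
    have hkx : k x = x := by
      rw [hy, sub_eq_zero] at hy1
      exact hy1.symm
    have : h'.symm (h x) = x := hkx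
    rw [IsometryEquiv.symm_apply_eq] at this
    exact this

/-- equality of tilings: all images under isometries -/
def cls (𝒯 : Set (Set (Eu d))) : Set (Set (Set (Eu d))) :=
  {𝒯' | ∃ g : Eu d ≃ᵢ Eu d, 𝒯' = (fun A => g '' A) '' 𝒯}

theorem self_mem_cls (𝒯 : Set (Set (Eu d))) : 𝒯 ∈ cls 𝒯 := by
  refine ⟨IsometryEquiv.refl _, ?_⟩
  have : (fun A : Set (Eu d) => (IsometryEquiv.refl (Eu d)) '' A) = id := by
    funext A
    exact Set.image_id A
  rw [this, Set.image_id]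

theorem cls_eq {𝒯 𝒯' : Set (Set (Eu d))} (g : Eu d ≃ᵢ Eu d) (h : 𝒯' = (fun A => g '' A) '' 𝒯) :
    cls 𝒯' = cls 𝒯 := by
  have hback : 𝒯 = (fun A => g.symm '' A) '' 𝒯' := by
    rw [h, Set.image_image]
    have : (fun A : Set (Eu d) => g.symm '' (g '' A)) = id := by
      funext A
      rw [Set.image_image]
      simp
    rw [this, Set.image_id]
  have htr : ∀ {𝒜 ℬ : Set (Set (Eu d))} (g : Eu d ≃ᵢ Eu d), ℬ = (fun A => g '' A) '' 𝒜 →
      cls ℬ ⊆ cls 𝒜 := by
    rintro 𝒜 ℬ g h _ ⟨k, rfl⟩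
    refine ⟨g.trans k, ?_⟩
    rw [h, Set.image_image]
    refine Set.image_congr fun A _ => ?_
    rw [Set.image_image]
    rfl
  exact Set.Subset.antisymm (htr g h) (htr g.symm hback)

theorem positions_tile (hF : F.Nonempty) (P : Set (Eu d)) : {v | tile F v ∈ tile F '' P} = P := by
  ext v
  constructor
  · rintro ⟨w, hw, hwv⟩
    rw [← tile_inj hF hwv]; exact hw
  · intro hv
    exact ⟨v, hv, rfl⟩

theorem tile_positions {𝒯 : Set (Set (Eu d))} (h : IsTr F 𝒯) :
    tile F '' {v | tile F v ∈ 𝒯} = 𝒯 := by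
  ext A
  constructor
  · rintro ⟨v, hv, rfl⟩
    exact hv
  · intro hA
    obtain ⟨v, rfl⟩ := h.1 A hA
    exact ⟨v, hA, rfl⟩

theorem isom_of_cls (hF : F.Nonempty) {P P' : Set (Eu d)} (hP : HO F P) (hP' : HO F P')
    (h : cls (tile F '' P') = cls (tile F '' P)) : ∃ k : Eu d ≃ᵢ Eu d, P' = k '' P := by
  have h1 := self_mem_cls (tile F '' P')
  rw [h] at h1
  obtain ⟨g, hg⟩ := h1
  obtain ⟨k, hk⟩ := exists_isom hF (tr_of_ho hP) (tr_of_ho hP') g hg
  rw [positions_tile hF, positions_tile hF] at hk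
  exact ⟨k, hk⟩

theorem countable_fiber (hF : F.Nonempty) (C : Set (Set (Set (Eu d)))) :
    {a : (Fin d → ℤ) → Bool | Tl F (fun f => f) a ∧ cls (tile F '' Pz a) = C}.Countable := by
  classical
  by_cases hne : ∃ a₀, Tl F (fun f => f) a₀ ∧ cls (tile F '' (Pz a₀ : Set (Eu d))) = C
  swap
  · have : {a : (Fin d → ℤ) → Bool | Tl F (fun f => f) a ∧ cls (tile F '' Pz a) = C} = ∅ := by
      rw [Set.eq_empty_iff_forall_notMem]
      intro a ha
      exact hne ⟨a, ha⟩
    rw [this]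
    exact Set.countable_empty
  obtain ⟨a₀, ha₀, rfl⟩ := hne
  have hP₀ := (ho_iff a₀).mpr ha₀
  obtain ⟨Q, hQfin, hQP, hQ⟩ := rigid hP₀
  set H : Set (Eu d ≃ᵢ Eu d) := {k | ∀ q ∈ Q, ∃ n, k q = zz n} with hH
  have hHc : H.Countable := by
    have : Finite Q := hQfin.to_subtype
    have hex : ∀ k : H, ∃ φ : Q → Fin d → ℤ, ∀ q : Q, (k : Eu d ≃ᵢ Eu d) q = zz (φ q) := by
      intro k
      choose φ hφ using fun q : Q => k.2 q q.2
      exact ⟨φ, hφ⟩
    choose Φ hΦ using hex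
    have hinj : Function.Injective Φ := by
      intro k k' hkk
      apply Subtype.ext
      apply hQ
      intro q hq
      rw [hΦ k ⟨q, hq⟩, hΦ k' ⟨q, hq⟩, hkk]
    have hc : Countable H := hinj.countable
    exact Set.countable_coe_iff.mp hc
  refine (hHc.image fun k => fun n => decide (zz n ∈ k '' Pz a₀)).mono ?_
  rintro a ⟨ha, hcl⟩
  obtain ⟨k, hk⟩ := isom_of_cls hF hP₀ ((ho_iff a).mpr ha) hcl
  refine ⟨k, ?_, ?_⟩
  · intro q hq
    have : k q ∈ Pz a := by rw [hk]; exact ⟨q, hQP hq, rfl⟩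
    obtain ⟨n, _, hn⟩ := this
    exact ⟨n, hn⟩
  · funext n
    show decide (zz n ∈ k '' Pz a₀) = a n
    rw [← hk]
    by_cases hn : a n = true
    · rw [hn]
      exact decide_eq_true (zz_mem_Pz.mpr hn)
    · have h1 : ¬ zz n ∈ Pz a := fun h => hn (zz_mem_Pz.mp h)
      have h2 : a n = false := by simpa using hn
      rw [h2]
      exact decide_eq_false h1

theorem not_countable_of_slide (hF : F.Nonempty) {P : Set (Eu d)} (hP : HO F P) {v w : Eu d}
    (hv : v ∈ P) (hw : w ∈ P) (i : Fin d) (hvw : ¬ ∃ k : ℤ, v i - w i = k) :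
    ¬ (cls '' {𝒯 : Set (Set (Eu d)) | IsTr F 𝒯}).Countable := by
  intro hcount
  set t : ℝ → ℝ := fun s => -((v - w) i) + Real.exp s with ht
  set Ps : ℝ → Set (Eu d) := fun s =>
    {u | ∃ x ∈ P, u = x + ev i ((fun c => if c = Int.fract (v i) then t s else 0)
      (Int.fract (x i)))} with hPs
  have hHO : ∀ s, HO F (Ps s) := fun s =>
    slide hP i (fun c => if c = Int.fract (v i) then t s else 0)
  have hvm : ∀ s, v + ev i (t s) ∈ Ps s := fun s => ⟨v, hv, by simp⟩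
  have hwm : ∀ s, w ∈ Ps s := by
    intro s
    refine ⟨w, hw, ?_⟩
    have hne : Int.fract (w i) ≠ Int.fract (v i) := by
      intro h
      rw [Int.fract_eq_fract] at h
      obtain ⟨z, hz⟩ := h
      refine hvw ⟨-z, ?_⟩
      push_cast
      linarith
    simp only [hne, if_false]
    ext j
    show w j = w j + (ev i 0 : Eu d) j
    by_cases hj : j = i
    · subst hj
      rw [ev_same, add_zero]
    · rw [ev_ne hj, add_zero]
  have hnorm : ∀ s, ‖v + ev i (t s) - w‖ ^ 2 = ‖v - w‖ ^ 2 - ((v - w) i) ^ 2 + Real.exp s ^ 2 := by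
    intro s
    have h1 : v + ev i (t s) - w = (v - w) + ev i (t s) := by abel
    rw [h1, norm_add_sq_real]
    have h2 : inner ℝ (v - w) (ev i (t s)) = t s * (v - w) i := by
      rw [ev, EuclideanSpace.inner_single_right]
      simp
    have h3 : ‖(ev i (t s) : Eu d)‖ ^ 2 = (t s) ^ 2 := by
      rw [ev, PiLp.norm_single, Real.norm_eq_abs, sq_abs]
    rw [h2, h3]
    show _ + 2 * ((-((v - w) i) + Real.exp s) * (v - w) i) + (-((v - w) i) + Real.exp s) ^ 2 = _
    ring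
  have hinj : ∀ s s', ‖v + ev i (t s) - w‖ = ‖v + ev i (t s') - w‖ → s = s' := by
    intro s s' h
    have h1 : ‖v + ev i (t s) - w‖ ^ 2 = ‖v + ev i (t s') - w‖ ^ 2 := by rw [h]
    rw [hnorm, hnorm] at h1
    have h2 : Real.exp s ^ 2 = Real.exp s' ^ 2 := by linarith
    have h3 : Real.exp s = Real.exp s' :=
      (pow_left_inj₀ (Real.exp_pos _).le (Real.exp_pos _).le two_ne_zero).mp h2
    exact Real.exp_injective h3
  have hfib : ∀ C, {s : ℝ | cls (tile F '' Ps s) = C}.Countable := by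
    intro C
    by_cases hne : ∃ s₀, cls (tile F '' Ps s₀) = C
    swap
    · have : {s : ℝ | cls (tile F '' Ps s) = C} = ∅ := by
        rw [Set.eq_empty_iff_forall_notMem]
        intro s hs
        exact hne ⟨s, hs⟩
      rw [this]
      exact Set.countable_empty
    obtain ⟨s₀, rfl⟩ := hne
    have hD : ((fun p : Eu d × Eu d => ‖p.1 - p.2‖) '' (Ps s₀ ×ˢ Ps s₀)).Countable :=
      ((countable_ho hF (hHO s₀)).prod (countable_ho hF (hHO s₀))).image _
    refine Set.countable_of_injective_of_countable_image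
      (f := fun s => ‖v + ev i (t s) - w‖) (fun s _ s' _ h => hinj s s' h) (hD.mono ?_)
    rintro _ ⟨s, hs, rfl⟩
    obtain ⟨k, hk⟩ := isom_of_cls hF (hHO s₀) (hHO s) hs
    have h1 := hvm s
    have h2 := hwm s
    rw [hk] at h1 h2
    obtain ⟨p, hp, hpe⟩ := h1
    obtain ⟨q, hq, hqe⟩ := h2
    refine ⟨(p, q), ⟨hp, hq⟩, ?_⟩
    show ‖p - q‖ = ‖v + ev i (t s) - w‖
    rw [← hpe, ← hqe, ← dist_eq_norm, ← dist_eq_norm, k.dist_eq]
  have hall : (Set.univ : Set ℝ) ⊆
      ⋃ C ∈ cls '' {𝒯 : Set (Set (Eu d)) | IsTr F 𝒯}, {s : ℝ | cls (tile F '' Ps s) = C} := by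
    intro s _
    rw [Set.mem_iUnion₂]
    exact ⟨_, ⟨tile F '' Ps s, tr_of_ho (hHO s), rfl⟩, rfl⟩
  exact Cardinal.not_countable_real ((hcount.biUnion fun C _ => hfib C).mono hall)

/-- **Translational tilings by a polycube: finitely many or uncountably many classes.** -/
theorem polycube_dichotomy (hF : F.Nonempty) :
    (cls '' {𝒯 : Set (Set (Eu d)) | IsTr F 𝒯}).Finite ∨
      ¬ (cls '' {𝒯 : Set (Set (Eu d)) | IsTr F 𝒯}).Countable := by
  classical
  by_cases hA : ∃ P : Set (Eu d), HO F P ∧ ∃ v ∈ P, ∃ w ∈ P, ∃ i, ¬ ∃ k : ℤ, v i - w i = k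
  · obtain ⟨P, hP, v, hv, w, hw, i, h⟩ := hA
    exact Or.inr (not_countable_of_slide hF hP hv hw i h)
  push Not at hA
  have hfg : AddGroup.FG (Fin d → ℤ) := Module.Finite.iff_addGroup_fg.mp inferInstance
  rcases finite_or_uncountable F (fun f : Fin d → ℤ => f) with hfin | hunc
  · left
    refine (hfin.image fun a => cls (tile F '' (Pz a : Set (Eu d)))).subset ?_
    rintro _ ⟨𝒯, h𝒯, rfl⟩
    have h𝒯' : IsTr F 𝒯 := h𝒯
    have hP := ho_of_tr hF h𝒯'
    obtain ⟨v₀, hv₀⟩ := ho_nonempty hP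
    set a : (Fin d → ℤ) → Bool := fun n => decide (tile F (zz n + v₀) ∈ 𝒯) with ha
    have hPa : (fun v => v + v₀) '' (Pz a : Set (Eu d)) = {v | tile F v ∈ 𝒯} := by
      ext v
      constructor
      · rintro ⟨_, ⟨n, hn, rfl⟩, rfl⟩
        exact of_decide_eq_true hn
      · intro hv
        choose n hn using hA _ hP v hv v₀ hv₀
        have e : zz n + v₀ = v := by
          ext i
          show (n i : ℝ) + v₀ i = v i
          rw [← hn i]; ring
        refine ⟨zz n, ⟨n, ?_, rfl⟩, e⟩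
        refine decide_eq_true ?_
        rw [e]; exact hv
    have hPz : HO F (Pz a : Set (Eu d)) := by
      have h1 := ho_translate hP (-v₀)
      rw [← hPa, Set.image_image] at h1
      simpa using h1
    refine ⟨a, (ho_iff a).mp hPz, ?_⟩
    refine (cls_eq (IsometryEquiv.addRight v₀) ?_).symm
    rw [Set.image_image]
    have h2 : 𝒯 = tile F '' {v | tile F v ∈ 𝒯} := (tile_positions h𝒯').symm
    rw [← hPa, Set.image_image] at h2
    rw [h2]
    refine Set.image_congr fun v _ => ?_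
    rw [tile, tile, Set.image_image]
    refine Set.image_congr fun x _ => ?_
    show x + (v + v₀) = x + v + v₀
    abel
  · right
    intro hcount
    apply hunc
    refine (hcount.biUnion fun C _ => countable_fiber hF C).mono ?_
    intro a ha
    rw [Set.mem_iUnion₂]
    exact ⟨_, ⟨tile F '' Pz a, tr_of_ho ((ho_iff a).mpr ha), rfl⟩, ha, rfl⟩

end TilDich
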