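import Pool.Agent.TilDich.Geo3

namespace TilDich

open MeasureTheory

variable {d : ℕ} {F : Finset (Fin d → ℤ)}

/-- monohedral tilings with prototile `body F` -/
def IsMono {d : ℕ} (F : Finset (Fin d → ℤ)) (𝒯 : Set (Set (Eu d))) : Prop :=
  (∀ A ∈ 𝒯, ∃ e : Eu d ≃ᵢ Eu d, A = e '' body F) ∧ ⋃₀ 𝒯 = Set.univ ∧
    𝒯.Pairwise fun A B => Disjoint (interior A) (interior B)

theorem IsTr.isMono {𝒯 : Set (Set (Eu d))} (h : IsTr F 𝒯) : IsMono F 𝒯 :=
  ⟨fun A hA => by
    obtain ⟨v, rfl⟩ := h.1 A hA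
    exact ⟨IsometryEquiv.addRight v, rfl⟩, h.2.1, h.2.2⟩

theorem IsMono.image {𝒯 : Set (Set (Eu d))} (h : IsMono F 𝒯) (g : Eu d ≃ᵢ Eu d) :
    IsMono F ((fun A => g '' A) '' 𝒯) := by
  refine ⟨?_, ?_, ?_⟩
  · rintro _ ⟨A, hA, rfl⟩
    obtain ⟨e, rfl⟩ := h.1 A hA
    refine ⟨e.trans g, ?_⟩
    show g '' (e '' body F) = _
    rw [Set.image_image]
    rfl
  · rw [Set.eq_univ_iff_forall]
    intro x
    have : g.symm x ∈ ⋃₀ 𝒯 := by rw [h.2.1]; trivial
    obtain ⟨A, hA, hx⟩ := this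
    exact ⟨g '' A, ⟨A, hA, rfl⟩, g.symm x, hx, g.apply_symm_apply x⟩
  · rintro _ ⟨A, hA, rfl⟩ _ ⟨B, hB, rfl⟩ hne
    have hAB : A ≠ B := fun h => hne (by rw [h])
    have h1 := h.2.2 hA hB hAB
    show Disjoint (interior (g '' A)) (interior (g '' B))
    have e : ∀ A : Set (Eu d), interior (g '' A) = g '' interior A := fun A =>
      (g.toHomeomorph.image_interior A).symm
    rw [e, e]
    exact Set.disjoint_image_iff g.injective |>.mpr h1

theorem isMono_nonempty {𝒯 : Set (Set (Eu d))} (h : IsMono F 𝒯) : 𝒯.Nonempty := by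
  have : (0 : Eu d) ∈ ⋃₀ 𝒯 := by rw [h.2.1]; trivial
  obtain ⟨A, hA, _⟩ := this
  exact ⟨A, hA⟩

theorem isom_add (g : Eu d ≃ᵢ Eu d) (x v : Eu d) :
    g (x + v) = g x + g.toRealAffineIsometryEquiv.linearIsometryEquiv v := by
  have := g.toRealAffineIsometryEquiv.map_vadd x v
  have e : g (v +ᵥ x) = g.toRealAffineIsometryEquiv.linearIsometryEquiv v + g x := this
  rw [vadd_eq_add] at e
  rw [add_comm x v, e, add_comm]

theorem isom_image_add (g : Eu d ≃ᵢ Eu d) (S : Set (Eu d)) (v : Eu d) :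
    g '' ((fun x => x + v) '' S) =
      (fun x => x + g.toRealAffineIsometryEquiv.linearIsometryEquiv v) '' (g '' S) := by
  rw [Set.image_image, Set.image_image]
  exact Set.image_congr fun x _ => isom_add g x v

/-- if all monohedral tilings consist of translates of one tile, the dichotomy holds for the
monohedral tilings -/
theorem mono_dichotomy (hF : F.Nonempty)
    (H : ∀ 𝒯, IsMono F 𝒯 → ∀ A ∈ 𝒯, ∀ B ∈ 𝒯, ∃ v : Eu d, B = (fun x => x + v) '' A) :
    (cls '' {𝒯 : Set (Set (Eu d)) | IsMono F 𝒯}).Finite ∨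
      ¬ (cls '' {𝒯 : Set (Set (Eu d)) | IsMono F 𝒯}).Countable := by
  have : cls '' {𝒯 : Set (Set (Eu d)) | IsMono F 𝒯} =
      cls '' {𝒯 : Set (Set (Eu d)) | IsTr F 𝒯} := by
    apply Set.Subset.antisymm
    · rintro _ ⟨𝒯, h𝒯, rfl⟩
      have h : IsMono F 𝒯 := h𝒯
      obtain ⟨A, hA⟩ := isMono_nonempty h
      obtain ⟨e, he⟩ := h.1 A hA
      refine ⟨(fun A => e.symm '' A) '' 𝒯, ?_, (cls_eq e.symm rfl)⟩
      have h' := h.image e.symm
      refine ⟨?_, h'.2.1, h'.2.2⟩
      rintro _ ⟨B, hB, rfl⟩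
      obtain ⟨v, hv⟩ := H 𝒯 h A hA B hB
      refine ⟨e.symm.toRealAffineIsometryEquiv.linearIsometryEquiv v, ?_⟩
      show e.symm '' B = _
      rw [hv, isom_image_add, he]
      congr 1
      rw [Set.image_image]
      simp
    · rintro _ ⟨𝒯, h𝒯, rfl⟩
      exact ⟨𝒯, IsTr.isMono h𝒯, rfl⟩
  rw [this]
  exact polycube_dichotomy hF

/-! ### Topology of polycubes -/

theorem isClosed_body (F : Finset (Fin d → ℤ)) : IsClosed (body F) := by
  unfold body
  refine Set.Finite.isClosed_biUnion F.finite_toSet fun f _ => ?_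
  have : (cub f : Set (Eu d)) = ⋂ i, {x : Eu d | (f i : ℝ) ≤ x i ∧ x i ≤ f i + 1} := by
    ext x; simp [cub]
  rw [this]
  refine isClosed_iInter fun i => ?_
  have hc : Continuous fun y : Eu d => y i := by fun_prop
  exact (isClosed_le continuous_const hc).inter (isClosed_le hc continuous_const)

theorem body_bounded (F : Finset (Fin d → ℤ)) : ∃ C : ℝ, 0 ≤ C ∧ ∀ x ∈ body F, ‖x‖ ≤ C := by
  obtain ⟨C, hC0, hC⟩ := exists_bound (Finset.univ.biUnion fun _ : Fin 1 =>
    F.biUnion fun f => Finset.Icc f (f + 1))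
  refine ⟨C, hC0, fun x hx => hC x ?_⟩
  simp only [body, Set.mem_iUnion] at hx
  obtain ⟨f, hf, hx⟩ := hx
  rw [Finset.mem_biUnion]
  refine ⟨0, Finset.mem_univ _, ?_⟩
  rw [Finset.mem_biUnion]
  refine ⟨f, hf, ?_⟩
  rw [Finset.mem_Icc]
  constructor
  · intro i
    show f i ≤ ⌊x i⌋
    exact Int.le_floor.mpr (hx i).1
  · intro i
    show ⌊x i⌋ ≤ f i + 1
    have h1 := (hx i).2
    have h2 := Int.floor_le (x i)
    have : (⌊x i⌋ : ℝ) ≤ ((f i + 1 : ℤ) : ℝ) := by push_cast; linarith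
    exact_mod_cast this

/-- the centre of the cell `f` -/
noncomputable def cen (f : Fin d → ℤ) : Eu d := WithLp.toLp 2 (fun i => (f i : ℝ) + 1 / 2)

theorem open_cell_subset {f : Fin d → ℤ} (hf : f ∈ F) {x : Eu d}
    (h : ∀ i, (f i : ℝ) < x i ∧ x i < f i + 1) : x ∈ interior (body F) := by
  have h1 : x ∈ interior (tile F (0 : Eu d)) := mem_interior_tile hf fun i => by
    have : x i - (0 : Eu d) i = x i := by
      show x i - 0 = x i
      rw [sub_zero]
    rw [this]
    exact h i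
  have h2 : tile F (0 : Eu d) = body F := by
    rw [tile]; simp
  rwa [h2] at h1

theorem ball_subset_body {f : Fin d → ℤ} (hf : f ∈ F) : Metric.ball (cen f) (1 / 2) ⊆ body F := by
  intro x hx
  rw [Metric.mem_ball, dist_eq_norm] at hx
  refine interior_subset (open_cell_subset hf fun i => ?_)
  have h1 : |x i - (f i + 1 / 2)| < 1 / 2 := by
    have h2 := PiLp.norm_apply_le (x - cen f) i
    have h3 : (x - cen f) i = x i - ((f i : ℝ) + 1 / 2) := rfl
    rw [h3, Real.norm_eq_abs] at h2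
    exact lt_of_le_of_lt h2 hx
  obtain ⟨h3, h4⟩ := abs_lt.mp h1
  constructor <;> linarith

theorem body_regular : body F ⊆ closure (interior (body F)) := by
  intro x hx
  simp only [body, Set.mem_iUnion] at hx
  obtain ⟨f, hf, hx⟩ := hx
  have hc : Continuous fun t : ℝ => x + t • (cen f - x) := by fun_prop
  have h0 : x = x + (0 : ℝ) • (cen f - x) := by simp
  have ht : Filter.Tendsto (fun t : ℝ => x + t • (cen f - x)) (nhdsWithin 0 (Set.Ioi 0)) (nhds x) := by
    have := hc.tendsto 0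
    rw [← h0] at this
    exact this.mono_left nhdsWithin_le_nhds
  refine mem_closure_of_tendsto ht ?_
  filter_upwards [Ioo_mem_nhdsGT (zero_lt_one' ℝ)] with t ht
  refine open_cell_subset hf fun i => ?_
  have e : (x + t • (cen f - x) : Eu d) i = x i + t * ((f i : ℝ) + 1 / 2 - x i) := rfl
  rw [e]
  obtain ⟨h1, h2⟩ := hx i
  constructor
  · nlinarith [ht.1, ht.2]
  · nlinarith [ht.1, ht.2]

theorem frontier_body_subset : frontier (body F) ⊆ {x : Eu d | ∃ i, ∃ n : ℤ, x i = n} := by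
  intro x hx
  by_contra hcon
  have hcon' : ∀ i, ∀ n : ℤ, x i ≠ n := fun i n h => hcon ⟨i, n, h⟩
  rw [(isClosed_body F).frontier_eq] at hx
  obtain ⟨hx1, hx2⟩ := hx
  simp only [body, Set.mem_iUnion] at hx1
  obtain ⟨f, hf, hx1⟩ := hx1
  refine hx2 (open_cell_subset hf fun i => ?_)
  refine ⟨lt_of_le_of_ne (hx1 i).1 (Ne.symm (hcon' i _)), lt_of_le_of_ne (hx1 i).2 ?_⟩
  have := hcon' i (f i + 1)
  push_cast at this
  exact this

theorem isClosed_tile_image (e : Eu d ≃ᵢ Eu d) : IsClosed (e '' body F) :=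
  e.toHomeomorph.isClosedMap _ (isClosed_body F)

/-- local finiteness of monohedral tilings -/
theorem IsMono.locallyFinite (hF : F.Nonempty) {𝒯 : Set (Set (Eu d))} (h : IsMono F 𝒯)
    (x : Eu d) : {A | A ∈ 𝒯 ∧ (A ∩ Metric.ball x 1).Nonempty}.Finite := by
  obtain ⟨f, hf⟩ := hF
  obtain ⟨C, hC0, hC⟩ := body_bounded F
  set S : Set (Set (Eu d)) := {A | A ∈ 𝒯 ∧ (A ∩ Metric.ball x 1).Nonempty} with hS
  have hball : ∀ A ∈ 𝒯, ∃ y : Eu d, Metric.ball y (1 / 2) ⊆ interior A := by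
    intro A hA
    obtain ⟨e, rfl⟩ := h.1 A hA
    refine ⟨e (cen f), ?_⟩
    rw [← e.image_ball]
    have h1 : Metric.ball (cen f : Eu d) (1 / 2) ⊆ interior (body F) :=
      interior_maximal (ball_subset_body hf) Metric.isOpen_ball
    have h2 : interior (e '' body F) = e '' interior (body F) :=
      (e.toHomeomorph.image_interior _).symm
    rw [h2]
    exact Set.image_mono h1
  have hsub : ∀ A ∈ S, A ⊆ Metric.ball x (2 * C + 2) := by
    rintro A ⟨hA, y, hyA, hyx⟩ z hz
    obtain ⟨e, rfl⟩ := h.1 A hA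
    obtain ⟨y', hy', rfl⟩ := hyA
    obtain ⟨z', hz', rfl⟩ := hz
    rw [Metric.mem_ball] at hyx ⊢
    have h1 : dist (e z') (e y') ≤ 2 * C := by
      rw [e.dist_eq, dist_eq_norm]
      refine (norm_sub_le _ _).trans ?_
      linarith [hC y' hy', hC z' hz']
    have := dist_triangle (e z') (e y') x
    linarith
  have hdis : Pairwise (Function.onFun Disjoint fun A : S => interior (A : Set (Eu d))) := by
    intro A B hne
    exact h.2.2 A.2.1 B.2.1 fun h => hne (Subtype.ext h)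
  have hfin := Measure.finite_const_le_meas_of_disjoint_iUnion (volume : Measure (Eu d))
    (ε := volume (Metric.ball (0 : Eu d) (1 / 2))) (Metric.measure_ball_pos _ _ (by norm_num))
    (As := fun A : S => interior (A : Set (Eu d))) (fun A => isOpen_interior.measurableSet)
    hdis (by
      refine ne_top_of_le_ne_top (Metric.isBounded_ball (x := x) (r := 2 * C + 2)).measure_lt_top.ne
        (measure_mono ?_)
      refine Set.iUnion_subset fun A => ?_
      exact interior_subset.trans (hsub A A.2))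
  have huniv : {A : S | volume (Metric.ball (0 : Eu d) (1 / 2)) ≤
      volume (interior (A : Set (Eu d)))} = Set.univ := by
    rw [Set.eq_univ_iff_forall]
    intro A
    obtain ⟨y, hy⟩ := hball A A.2.1
    have := measure_mono (μ := (volume : Measure (Eu d))) hy
    rwa [Measure.addHaar_ball_center] at this
  rw [huniv] at hfin
  exact Set.finite_coe_iff.mp (Set.finite_univ_iff.mp hfin)

theorem IsMono.countable (hF : F.Nonempty) {𝒯 : Set (Set (Eu d))} (h : IsMono F 𝒯) :
    𝒯.Countable := by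
  obtain ⟨f, hf⟩ := hF
  refine Set.PairwiseDisjoint.countable_of_isOpen (s := fun A => interior A) (a := 𝒯)
    (fun A hA B hB hne => h.2.2 hA hB hne) (fun A _ => isOpen_interior) ?_
  intro A hA
  obtain ⟨e, rfl⟩ := h.1 A hA
  have h2 : interior (e '' body F) = e '' interior (body F) :=
    (e.toHomeomorph.image_interior _).symm
  rw [h2]
  refine Set.Nonempty.image _ ⟨cen f, ?_⟩
  exact interior_maximal (ball_subset_body hf) Metric.isOpen_ball
    (Metric.mem_ball_self (by norm_num))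

theorem IsMono.isClosed_sUnion (hF : F.Nonempty) {𝒯 : Set (Set (Eu d))} (h : IsMono F 𝒯)
    (𝒰 : Set (Set (Eu d))) (hU : 𝒰 ⊆ 𝒯) : IsClosed (⋃₀ 𝒰) := by
  rw [Set.sUnion_eq_iUnion]
  refine LocallyFinite.isClosed_iUnion ?_ ?_
  · intro x
    refine ⟨Metric.ball x 1, Metric.ball_mem_nhds x one_pos, ?_⟩
    have h1 := h.locallyFinite hF x
    refine Set.Finite.of_finite_image (f := Subtype.val) (h1.subset ?_)
      Subtype.val_injective.injOn
    rintro _ ⟨A, hA, rfl⟩
    exact ⟨hU A.2, hA⟩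
  · intro A
    obtain ⟨e, he⟩ := h.1 A (hU A.2)
    rw [he]
    exact isClosed_tile_image e

end TilDich
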