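import Pool.Agent.TilDich.Geo4

namespace TilDich

open MeasureTheory

/-- The polyomino with cells `F` has, up to translations, all eight symmetries of the square: the
condition on the linear isometry `L` says that `L` maps the first unit vector into a coordinate
axis, i.e. that `L` is one of the eight linear symmetries of the square. -/
def SquareSymmetric (F : Finset (Fin 2 → ℤ)) : Prop :=
  ∀ L : Eu 2 ≃ₗᵢ[ℝ] Eu 2, (∃ i, L (EuclideanSpace.single 0 1) i = 0) →
    ∃ c : Eu 2, L '' body F = (fun x => x + c) '' body F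

theorem inner_two (x y : Eu 2) : inner ℝ x y = x 0 * y 0 + x 1 * y 1 := by
  rw [PiLp.inner_apply]
  simp [Fin.sum_univ_two, mul_comm]

/-- a linear isometry of the plane with no zero entry in the first column has no zero entries in
the inverse -/
theorem no_zero {K : Eu 2 ≃ₗᵢ[ℝ] Eu 2} (hK : ∀ i, K (EuclideanSpace.single 0 1) i ≠ 0)
    (i j : Fin 2) : K.symm (EuclideanSpace.single i 1) j ≠ 0 := by
  have h1 : K.symm (EuclideanSpace.single i 1) j = K (EuclideanSpace.single j 1) i := by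
    have e1 : inner ℝ (K.symm (EuclideanSpace.single i 1)) (EuclideanSpace.single j (1 : ℝ)) =
        inner ℝ (EuclideanSpace.single i (1 : ℝ)) (K (EuclideanSpace.single j 1)) := by
      rw [← K.inner_map_map, K.apply_symm_apply]
    rw [EuclideanSpace.inner_single_right, EuclideanSpace.inner_single_left] at e1
    simpa using e1
  rw [h1]
  fin_cases j
  · exact hK i
  · set p := K (EuclideanSpace.single (0 : Fin 2) 1) with hp
    set q := K (EuclideanSpace.single (1 : Fin 2) 1) with hq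
    have horth : p 0 * q 0 + p 1 * q 1 = 0 := by
      rw [← inner_two, hp, hq, K.inner_map_map, EuclideanSpace.inner_single_left]
      simp
    have hnorm : q 0 * q 0 + q 1 * q 1 = 1 := by
      rw [← inner_two, hq, K.inner_map_map, EuclideanSpace.inner_single_left]
      simp
    intro hzero
    have hzero' : q i = 0 := hzero
    fin_cases i
    · have hz : q 0 = 0 := hzero'
      rw [hz, mul_zero, zero_add] at horth
      rcases mul_eq_zero.mp horth with h | h
      · exact hK 1 h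
      · rw [hz, h] at hnorm; norm_num at hnorm
    · have hz : q 1 = 0 := hzero'
      rw [hz, mul_zero, add_zero] at horth
      rcases mul_eq_zero.mp horth with h | h
      · exact hK 0 h
      · rw [hz, h] at hnorm; norm_num at hnorm

variable {F : Finset (Fin 2 → ℤ)}

theorem countable_inter {K : Eu 2 ≃ₗᵢ[ℝ] Eu 2} (hK : ∀ i, K (EuclideanSpace.single 0 1) i ≠ 0)
    (c v : Eu 2) :
    ({x : Eu 2 | ∃ i, ∃ n : ℤ, (x - v) i = n} ∩
      {x : Eu 2 | ∃ i, ∃ n : ℤ, (K.symm (x - c)) i = n}).Countable := by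
  have hsub : ({x : Eu 2 | ∃ i, ∃ n : ℤ, (x - v) i = n} ∩
      {x : Eu 2 | ∃ i, ∃ n : ℤ, (K.symm (x - c)) i = n}) ⊆
      ⋃ q : (Fin 2 × ℤ) × (Fin 2 × ℤ), {x : Eu 2 | (x - v) q.1.1 = q.1.2 ∧
        (K.symm (x - c)) q.2.1 = q.2.2} := by
    rintro x ⟨⟨i, n, h⟩, ⟨j, m, h'⟩⟩
    rw [Set.mem_iUnion]
    exact ⟨((i, n), (j, m)), h, h'⟩
  refine (Set.countable_iUnion fun q => Set.Subsingleton.countable ?_).mono hsub
  obtain ⟨⟨i, n⟩, ⟨j, m⟩⟩ := q
  rintro x ⟨hx1, hx2⟩ y ⟨hy1, hy2⟩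
  simp only at hx1 hx2 hy1 hy2
  set w := x - y with hw
  have hwi : w i = 0 := by
    have a1 : (x - v) i = x i - v i := rfl
    have a2 : (y - v) i = y i - v i := rfl
    have a3 : w i = x i - y i := rfl
    rw [a1] at hx1; rw [a2] at hy1
    rw [a3]; linarith
  have hKw : (K.symm w) j = 0 := by
    have a1 : K.symm w = K.symm (x - c) - K.symm (y - c) := by
      rw [← map_sub]
      congr 1
      rw [hw]; abel
    rw [a1]
    show K.symm (x - c) j - K.symm (y - c) j = 0
    rw [hx2, hy2, sub_self]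
  have hwz : w = 0 := by
    have key : ∀ i' : Fin 2, (∀ k, k ≠ i' → w k = 0) → w = 0 := by
      intro i' hk
      have a1 : w = w i' • (EuclideanSpace.single i' (1 : ℝ) : Eu 2) := by
        ext k
        by_cases hki : k = i'
        · subst hki; simp
        · simp [hki, hk k hki]
      rw [a1, map_smul] at hKw
      have a2 : w i' * (K.symm (EuclideanSpace.single i' 1)) j = 0 := hKw
      rcases mul_eq_zero.mp a2 with h | h
      · rw [a1, h, zero_smul]
      · exact absurd h (no_zero hK i' j)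
    fin_cases i
    · refine key 1 fun k hk => ?_
      fin_cases k
      · exact hwi
      · exact absurd rfl hk
    · refine key 0 fun k hk => ?_
      fin_cases k
      · exact absurd rfl hk
      · exact hwi
  exact sub_eq_zero.mp hwz

theorem mem_frontier_of_mem (𝒯 : Set (Set (Eu 2))) (h : IsMono F 𝒯) {A B : Set (Eu 2)}
    (hA : A ∈ 𝒯) (hB : B ∈ 𝒯) (hne : A ≠ B) {x : Eu 2} (hxA : x ∈ A) (hxB : x ∈ B) :
    x ∈ frontier A := by
  obtain ⟨e, rfl⟩ := h.1 A hA
  rw [(isClosed_tile_image e).frontier_eq]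
  refine ⟨hxA, fun hint => ?_⟩
  obtain ⟨g, rfl⟩ := h.1 B hB
  have h1 : x ∈ closure (interior (g '' body F)) := by
    obtain ⟨y, hy, rfl⟩ := hxB
    have h2 := body_regular hy
    have h3 : closure (interior (g '' body F)) = g '' closure (interior (body F)) := by
      have a1 : interior (g '' body F) = g '' interior (body F) :=
        (g.toHomeomorph.image_interior _).symm
      rw [a1]
      exact (g.toHomeomorph.image_closure _).symm
    rw [h3]
    exact ⟨y, h2, rfl⟩
  rw [mem_closure_iff] at h1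
  obtain ⟨z, hz1, hz2⟩ := h1 _ isOpen_interior hint
  exact Set.disjoint_left.mp (h.2.2 hA hB hne) hz1 hz2

theorem square_core (hF : F.Nonempty) (hs : SquareSymmetric F) {𝒯 : Set (Set (Eu 2))}
    (h : IsMono F 𝒯) (hbody : body F ∈ 𝒯) (B : Set (Eu 2)) (hB : B ∈ 𝒯) :
    ∃ v : Eu 2, B = (fun x => x + v) '' body F := by
  set 𝒯₀ : Set (Set (Eu 2)) := {A ∈ 𝒯 | ∃ v : Eu 2, A = (fun x => x + v) '' body F} with h𝒯₀
  set 𝒯₁ : Set (Set (Eu 2)) := {A ∈ 𝒯 | ¬ ∃ v : Eu 2, A = (fun x => x + v) '' body F} with h𝒯₁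
  by_contra hcon
  have hB1 : B ∈ 𝒯₁ := ⟨hB, hcon⟩
  have hA0 : body F ∈ 𝒯₀ := ⟨hbody, 0, by simp⟩
  have hUc : IsClosed (⋃₀ 𝒯₀) := h.isClosed_sUnion hF _ fun A hA => hA.1
  have hVc : IsClosed (⋃₀ 𝒯₁) := h.isClosed_sUnion hF _ fun A hA => hA.1
  have hcov : ∀ x : Eu 2, x ∈ ⋃₀ 𝒯₀ ∪ ⋃₀ 𝒯₁ := by
    intro x
    have : x ∈ ⋃₀ 𝒯 := by rw [h.2.1]; trivial
    obtain ⟨A, hA, hx⟩ := this
    by_cases hc : ∃ v : Eu 2, A = (fun x => x + v) '' body F
    · exact Or.inl ⟨A, ⟨hA, hc⟩, hx⟩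
    · exact Or.inr ⟨A, ⟨hA, hc⟩, hx⟩
  -- the intersection is countable
  have hpair : ∀ A ∈ 𝒯₀, ∀ B ∈ 𝒯₁, (A ∩ B).Countable := by
    intro A hA B hB
    have hne : A ≠ B := fun h => hB.2 (h ▸ hA.2)
    obtain ⟨v, hv⟩ := hA.2
    obtain ⟨g, hg⟩ := h.1 B hB.1
    set K := g.toRealAffineIsometryEquiv.linearIsometryEquiv with hKdef
    have hgK : ∀ x, g x = K x + g 0 := by
      intro x
      have := isom_add g 0 x
      rw [zero_add] at this
      rw [this, add_comm]
    have hK : ∀ i, K (EuclideanSpace.single 0 1) i ≠ 0 := by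
      intro i hi
      apply hB.2
      obtain ⟨c, hc⟩ := hs K ⟨i, hi⟩
      refine ⟨c + g 0, ?_⟩
      have e1 : g '' body F = (fun y => y + g 0) '' (K '' body F) := by
        rw [Set.image_image]
        exact Set.image_congr fun x _ => hgK x
      rw [hg, e1, hc, Set.image_image]
      refine Set.image_congr fun x _ => ?_
      show x + c + g 0 = x + (c + g 0)
      abel
    refine (countable_inter hK (g 0) v).mono ?_
    rintro x ⟨hxA, hxB⟩
    have f1 := mem_frontier_of_mem 𝒯 h hA.1 hB.1 hne hxA hxB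
    have f2 := mem_frontier_of_mem 𝒯 h hB.1 hA.1 (Ne.symm hne) hxB hxA
    constructor
    · have e1 : frontier A = (fun x => x + v) '' frontier (body F) := by
        rw [hv]
        exact ((IsometryEquiv.addRight v).toHomeomorph.image_frontier (body F)).symm
      rw [e1] at f1
      obtain ⟨y, hy, rfl⟩ := f1
      obtain ⟨i, n, hn⟩ := frontier_body_subset hy
      refine ⟨i, n, ?_⟩
      have : y + v - v = y := by abel
      show (y + v - v) i = n
      rw [this]; exact hn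
    · have e1 : frontier B = g '' frontier (body F) := by
        rw [hg]
        exact (g.toHomeomorph.image_frontier (body F)).symm
      rw [e1] at f2
      obtain ⟨y, hy, rfl⟩ := f2
      obtain ⟨i, n, hn⟩ := frontier_body_subset hy
      refine ⟨i, n, ?_⟩
      have : K.symm (g y - g 0) = y := by
        rw [hgK y]
        have : K y + g 0 - g 0 = K y := by abel
        rw [this, K.symm_apply_apply]
      rw [this]; exact hn
  have hcount : (⋃₀ 𝒯₀ ∩ ⋃₀ 𝒯₁).Countable := by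
    have hTc := h.countable hF
    have : ⋃₀ 𝒯₀ ∩ ⋃₀ 𝒯₁ ⊆ ⋃ A ∈ 𝒯₀, ⋃ B ∈ 𝒯₁, A ∩ B := by
      rintro x ⟨⟨A, hA, hxA⟩, ⟨B, hB, hxB⟩⟩
      simp only [Set.mem_iUnion]
      exact ⟨A, hA, B, hB, hxA, hxB⟩
    refine Set.Countable.mono this ?_
    exact (hTc.mono fun A hA => hA.1).biUnion fun A hA =>
      (hTc.mono fun A hA => hA.1).biUnion fun B hB => hpair A hA B hB
  have hrank : 1 < Module.rank ℝ (Eu 2) := by
    refine Module.one_lt_rank_of_one_lt_finrank ?_
    rw [finrank_euclideanSpace_fin]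
    norm_num
  have hconn := hcount.isPathConnected_compl_of_one_lt_rank hrank
  have hpre := isPreconnected_closed_iff.mp hconn.isConnected.isPreconnected _ _ hUc hVc
    (fun x _ => hcov x)
  -- a tile is not contained in a countable set
  have hbig : ∀ A ∈ 𝒯, ¬ A.Countable := by
    intro A hA hAc
    obtain ⟨e, rfl⟩ := h.1 A hA
    obtain ⟨f, hf⟩ := hF
    have h1 : Metric.ball (e (cen f)) (1 / 2) ⊆ e '' body F := by
      rw [← e.image_ball]
      exact Set.image_mono (ball_subset_body hf)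
    have h2 := (hAc.mono h1).measure_zero (volume : Measure (Eu 2))
    exact (Metric.measure_ball_pos (volume : Measure (Eu 2)) (e (cen f))
      (by norm_num : (0 : ℝ) < 1 / 2)).ne' h2
  have hne0 : ((⋃₀ 𝒯₀ ∩ ⋃₀ 𝒯₁)ᶜ ∩ ⋃₀ 𝒯₀).Nonempty := by
    by_contra hemp
    rw [Set.not_nonempty_iff_eq_empty] at hemp
    refine hbig _ hbody (hcount.mono fun x hx => ?_)
    by_contra hx'
    have : x ∈ (⋃₀ 𝒯₀ ∩ ⋃₀ 𝒯₁)ᶜ ∩ ⋃₀ 𝒯₀ := ⟨hx', _, hA0, hx⟩
    rw [hemp] at this
    exact this
  have hne1 : ((⋃₀ 𝒯₀ ∩ ⋃₀ 𝒯₁)ᶜ ∩ ⋃₀ 𝒯₁).Nonempty := by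
    by_contra hemp
    rw [Set.not_nonempty_iff_eq_empty] at hemp
    refine hbig _ hB (hcount.mono fun x hx => ?_)
    by_contra hx'
    have : x ∈ (⋃₀ 𝒯₀ ∩ ⋃₀ 𝒯₁)ᶜ ∩ ⋃₀ 𝒯₁ := ⟨hx', _, hB1, hx⟩
    rw [hemp] at this
    exact this
  obtain ⟨x, hx1, hx2⟩ := hpre hne0 hne1
  exact hx1 hx2

theorem square_dichotomy (hF : F.Nonempty) (hs : SquareSymmetric F) :
    (cls '' {𝒯 : Set (Set (Eu 2)) | IsMono F 𝒯}).Finite ∨
      ¬ (cls '' {𝒯 : Set (Set (Eu 2)) | IsMono F 𝒯}).Countable := by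
  refine mono_dichotomy hF ?_
  intro 𝒯 h A hA B hB
  obtain ⟨e, he⟩ := h.1 A hA
  have h' := h.image e.symm
  have hb : body F ∈ (fun A => e.symm '' A) '' 𝒯 := by
    refine ⟨A, hA, ?_⟩
    show e.symm '' A = body F
    rw [he, Set.image_image]
    simp
  obtain ⟨v, hv⟩ := square_core hF hs h' hb (e.symm '' B) ⟨B, hB, rfl⟩
  refine ⟨e.toRealAffineIsometryEquiv.linearIsometryEquiv v, ?_⟩
  have e1 : B = e '' (e.symm '' B) := by
    rw [Set.image_image]
    simp
  rw [e1, hv, isom_image_add, ← he]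

end TilDich
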