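import Pool.Agent.TilDich.Dilation
import Pool.Agent.TilDich.Dyn

/-!
# The number of tilings of a finitely generated abelian group by translates of a finite set is
finite or uncountable
-/

namespace TilDich

open Finset

variable {G ι : Type*} [AddCommGroup G]

theorem isClosed_tl (s : Finset ι) (u : ι → G) : IsClosed {a : G → Bool | Tl s u a} := by
  have : {a : G → Bool | Tl s u a} =
      ⋂ x, (fun a : G → Bool => ∑ i ∈ s, ind (a (x - u i))) ⁻¹' {1} := by
    ext a
    simp [Tl]
  rw [this]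
  refine isClosed_iInter fun x => ?_
  refine IsClosed.preimage ?_ (isClosed_discrete _)
  refine continuous_finsetSum _ fun i _ => ?_
  have h1 : Continuous ind := continuous_of_discreteTopology
  have h2 : Continuous fun a : G → Bool => a (x - u i) := continuous_apply (x - u i)
  exact h1.comp h2

theorem inv_tl (s : Finset ι) (u : ι → G) : Inv {a : G → Bool | Tl s u a} := by
  intro g a ha x
  have h := ha (x + g)
  rw [← h]
  refine Finset.sum_congr rfl fun i _ => ?_
  show ind (a (x - u i + g)) = ind (a (x + g - u i))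
  congr 2
  abel

theorem sh_nsmul_eq (x : G → Bool) (d : G) (h : sh d x = x) (m : ℕ) : sh (m • d) x = x := by
  induction m with
  | zero => rw [zero_smul, sh_zero]
  | succ m ih => rw [succ_nsmul, sh_add, h, ih]

theorem sh_neg_eq (x : G → Bool) (d : G) (h : sh d x = x) : sh (-d) x = x := by
  conv_lhs => rw [← h]
  rw [sh_neg_sh]

/-- uniform period of a finite invariant set -/
theorem exists_period (S : Set (G → Bool)) (hS : S.Finite) (hi : Inv S) :
    ∃ N : ℕ, 0 < N ∧ ∀ g : G, ∀ s ∈ S, sh (N • g) s = s := by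
  classical
  refine ⟨(hS.toFinset.card).factorial, Nat.factorial_pos _, ?_⟩
  intro g s hs
  have hmaps : ∀ n ∈ Finset.range (hS.toFinset.card + 1), sh (n • g) s ∈ hS.toFinset := by
    intro n _
    rw [Set.Finite.mem_toFinset]
    exact hi _ _ hs
  obtain ⟨i, hi', j, hj', hij, he⟩ := Finset.exists_ne_map_eq_of_card_lt_of_maps_to
    (by simp) hmaps
  wlog hlt : i < j generalizing i j
  · exact this j hj' i hi' hij.symm he.symm (lt_of_le_of_ne (not_lt.mp hlt) hij.symm)
  rw [Finset.mem_range] at hj'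
  have h1 : sh ((j - i) • g) s = s := by
    have h2 : j • g = i • g + (j - i) • g := by
      rw [← add_nsmul]
      congr 1
      omega
    rw [h2, sh_add] at he
    have h3 := congrArg (sh (-(i • g))) he
    rw [sh_neg_sh, sh_neg_sh] at h3
    exact h3.symm
  have hdvd : (j - i) ∣ (hS.toFinset.card).factorial :=
    Nat.dvd_factorial (by omega) (by omega)
  obtain ⟨m, hm⟩ := hdvd
  rw [hm, mul_comm, mul_smul]
  exact sh_nsmul_eq s _ h1 m

/-- the torsion relative to the stabiliser -/
def Tor (x : G → Bool) : AddSubgroup G where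
  carrier := {g | ∃ n : ℕ, 0 < n ∧ sh (n • g) x = x}
  zero_mem' := ⟨1, one_pos, by rw [smul_zero, sh_zero]⟩
  add_mem' := by
    rintro g h ⟨n, hn, hg⟩ ⟨m, hm, hh⟩
    refine ⟨n * m, Nat.mul_pos hn hm, ?_⟩
    rw [smul_add, sh_add]
    have h1 : sh ((n * m) • h) x = x := by
      rw [mul_smul]; exact sh_nsmul_eq x _ hh n
    have h2 : sh ((n * m) • g) x = x := by
      rw [mul_comm, mul_smul]; exact sh_nsmul_eq x _ hg m
    rw [h1, h2]
  neg_mem' := by
    rintro g ⟨n, hn, hg⟩
    refine ⟨n, hn, ?_⟩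
    rw [smul_neg]
    exact sh_neg_eq x _ hg

theorem exists_not_tor [hfg : AddGroup.FG G] (x : G → Bool)
    (hx : (Set.range fun g => sh g x).Infinite) : ∃ g, g ∉ Tor x := by
  by_contra hcon
  push Not at hcon
  apply hx
  let L : AddSubgroup G :=
    { carrier := {g | sh g x = x}
      zero_mem' := sh_zero x
      add_mem' := by
        intro g h hg hh
        show sh (g + h) x = x
        rw [sh_add, hh, hg]
      neg_mem' := by
        intro g hg
        exact sh_neg_eq x g hg }
  have hfgq : AddGroup.FG (G ⧸ L) := by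
    refine AddGroup.fg_of_surjective (f := QuotientAddGroup.mk' L)
      (QuotientAddGroup.mk'_surjective L)
  have hfin : Finite (G ⧸ L) := by
    refine AddCommGroup.finite_of_fg_isAddTorsion (G ⧸ L) ?_
    intro q
    obtain ⟨g, rfl⟩ := QuotientAddGroup.mk_surjective q
    obtain ⟨n, hn, hg⟩ := hcon g
    rw [isOfFinAddOrder_iff_nsmul_eq_zero]
    refine ⟨n, hn, ?_⟩
    rw [← QuotientAddGroup.mk_nsmul, QuotientAddGroup.eq_zero_iff]
    exact hg
  let φ : G ⧸ L → (G → Bool) := Quotient.lift (fun g => sh g x) (by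
    intro a b hab
    have h1 : -a + b ∈ L := (QuotientAddGroup.leftRel_apply).mp hab
    have h2 : sh (-a + b) x = x := h1
    show sh a x = sh b x
    have h3 : b = a + (-a + b) := by abel
    rw [h3, sh_add, h2])
  refine (Set.finite_range φ).subset ?_
  rintro _ ⟨g, rfl⟩
  exact ⟨(g : G ⧸ L), rfl⟩

/-- far out in a direction of infinite order everything is matched -/
theorem far_matched (x : G → Bool) (S : Set (G → Bool)) (W : Finset G)
    (hW : {y | (∃ g, y = sh g x) ∧ ¬ ∃ s ∈ S, ∀ w ∈ W, y w = s w}.Finite)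
    (f : G) (hf : f ∉ Tor x) (q : ℕ) (hq : 0 < q) (B : Finset G) :
    ∃ J : ℕ, ∀ j, J ≤ j → ∀ b ∈ B, ∃ s ∈ S, Mt W x (b - (1 + q * j) • f) s := by
  classical
  have h1 : ∀ b ∈ B, {j : ℕ | ¬ ∃ s ∈ S, Mt W x (b - (1 + q * j) • f) s}.Finite := by
    intro b _
    have hinj : Set.InjOn (fun j : ℕ => sh (b - (1 + q * j) • f) x)
        ((fun j : ℕ => sh (b - (1 + q * j) • f) x) ⁻¹'
          {y | (∃ g, y = sh g x) ∧ ¬ ∃ s ∈ S, ∀ w ∈ W, y w = s w}) := by
      intro i _ j _ hij
      by_contra hne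
      wlog hlt : i < j generalizing i j
      · exact this ‹_› ‹_› hij.symm (Ne.symm hne)
          (lt_of_le_of_ne (not_lt.mp hlt) (Ne.symm hne))
      apply hf
      refine ⟨q * (j - i), Nat.mul_pos hq (by omega), ?_⟩
      have h2 : b - (1 + q * i) • f = (q * (j - i)) • f + (b - (1 + q * j) • f) := by
        have h3 : (1 + q * j) • f = (q * (j - i)) • f + (1 + q * i) • f := by
          rw [← add_nsmul]
          congr 1
          obtain ⟨m, rfl⟩ := Nat.exists_eq_add_of_lt hlt
          have : i + m + 1 - i = m + 1 := by omega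
          rw [this]
          ring
        rw [h3]
        abel
      have hij' : sh (b - (1 + q * i) • f) x = sh (b - (1 + q * j) • f) x := hij
      rw [h2, add_comm, sh_add] at hij'
      have h4 := congrArg (sh (-(b - (1 + q * j) • f))) hij'
      rw [sh_neg_sh, sh_neg_sh] at h4
      exact h4
    refine (Set.Finite.preimage hinj hW).subset ?_
    intro j hj
    refine ⟨⟨_, rfl⟩, ?_⟩
    rintro ⟨s, hs, hm⟩
    refine hj ⟨s, hs, fun w hw => ?_⟩
    rw [← hm w hw, add_comm]
    rfl
  have h2 : (⋃ b ∈ B, {j : ℕ | ¬ ∃ s ∈ S, Mt W x (b - (1 + q * j) • f) s}).Finite :=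
    Set.Finite.biUnion B.finite_toSet h1
  obtain ⟨J, hJ⟩ := h2.bddAbove
  refine ⟨J + 1, ?_⟩
  intro j hj b hb
  by_contra hcon
  have : j ∈ ⋃ b ∈ B, {j : ℕ | ¬ ∃ s ∈ S, Mt W x (b - (1 + q * j) • f) s} :=
    Set.mem_biUnion hb hcon
  have := hJ this
  omega

/-- the phase at infinity in a direction of infinite order -/
theorem phase [AddGroup.FG G] (x : G → Bool) (S : Set (G → Bool)) (hS : S.Finite) (hi : Inv S)
    (hSx : ∀ W : Finset G, {y | (∃ g, y = sh g x) ∧ ¬ ∃ s ∈ S, ∀ w ∈ W, y w = s w}.Finite)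
    (N : ℕ) (hNS : ∀ g : G, ∀ s ∈ S, sh (N • g) s = s)
    (f : G) (hf : f ∉ Tor x) (q : ℕ) (hq : 0 < q) (hNq : N ∣ q) :
    ∃ s ∈ S, ∀ k : G, ∃ J : ℕ, ∀ j, J ≤ j → x (k - (1 + q * j) • f) = s (k - f) := by
  classical
  obtain ⟨W, h0, _, hwin⟩ := exists_window S hS hi
  obtain ⟨B0, hB0⟩ := hwin (-(q • f))
  obtain ⟨J0, hJ0⟩ := far_matched x S W (hSx W) f hf q hq (insert 0 B0)
  obtain ⟨t, ht, hmt⟩ := hJ0 J0 le_rfl 0 (Finset.mem_insert_self _ _)
  have hper : ∀ s ∈ S, sh (-(q • f)) s = s := by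
    intro s hs
    apply sh_neg_eq
    obtain ⟨m, rfl⟩ := hNq
    rw [mul_smul]
    exact hNS _ s hs
  have hall : ∀ j, J0 ≤ j → Mt W x (0 - (1 + q * j) • f) t := by
    intro j hj
    induction j, hj using Nat.le_induction with
    | base => exact hmt
    | succ j hj ih =>
      have h1 := hB0 x (0 - (1 + q * j) • f) (fun b hb => by
        obtain ⟨s, hs, hm⟩ := hJ0 j hj b (Finset.mem_insert_of_mem hb)
        refine ⟨s, hs, ?_⟩
        have h2 : (0 - (1 + q * j) • f + b : G) = b - (1 + q * j) • f := by abel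
        rw [h2]
        exact hm) t ht ih
      rw [hper t ht] at h1
      have h3 : (0 - (1 + q * j) • f + -(q • f) : G) = 0 - (1 + q * (j + 1)) • f := by
        have : (1 + q * (j + 1)) • f = (1 + q * j) • f + q • f := by
          rw [← add_nsmul]
          congr 1
          ring
        rw [this]
        abel
      rw [h3] at h1
      exact h1
  refine ⟨sh f t, hi f t ht, ?_⟩
  intro k
  obtain ⟨B, hB⟩ := hwin k
  obtain ⟨J1, hJ1⟩ := far_matched x S W (hSx W) f hf q hq B
  refine ⟨max J0 J1, ?_⟩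
  intro j hj
  have h1 := hB x (0 - (1 + q * j) • f) (fun b hb => by
    obtain ⟨s, hs, hm⟩ := hJ1 j (le_trans (le_max_right _ _) hj) b hb
    refine ⟨s, hs, ?_⟩
    have h2 : (0 - (1 + q * j) • f + b : G) = b - (1 + q * j) • f := by abel
    rw [h2]
    exact hm) t ht (hall j (le_trans (le_max_left _ _) hj)) 0 h0
  have h4 : (0 - (1 + q * j) • f + k + 0 : G) = k - (1 + q * j) • f := by abel
  rw [h4] at h1
  rw [h1]
  show t (0 + k) = t (k - f + f)
  congr 1
  abel

open Classical in
/-- for `x` asymptotic to a finite invariant set, the partial sums over the classes modulo `Tor x`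
are periodic -/
theorem class_periodic [AddGroup.FG G] (s : Finset ι) (u : ι → G) (x : G → Bool)
    (hx : Tl s u x) (S : Set (G → Bool)) (hS : S.Finite) (hi : Inv S)
    (hSx : ∀ W : Finset G, {y | (∃ g, y = sh g x) ∧ ¬ ∃ s ∈ S, ∀ w ∈ W, y w = s w}.Finite)
    (N : ℕ) (hN : 0 < N) (hNS : ∀ g : G, ∀ s ∈ S, sh (N • g) s = s) (i₀ : ι) (k g : G) :
    ∑ i ∈ s with (QuotientAddGroup.mk (u i) : G ⧸ Tor x) = QuotientAddGroup.mk (u i₀),
        ind (x (k + N • g - (u i - u i₀))) =
      ∑ i ∈ s with (QuotientAddGroup.mk (u i) : G ⧸ Tor x) = QuotientAddGroup.mk (u i₀),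
        ind (x (k - (u i - u i₀))) := by
  -- torsion orders
  have hn : ∀ d : G, ∃ n : ℕ, 0 < n ∧ (d ∈ Tor x → sh (n • d) x = x) := by
    intro d
    by_cases hd : d ∈ Tor x
    · obtain ⟨n, hn, h⟩ := hd
      exact ⟨n, hn, fun _ => h⟩
    · exact ⟨1, one_pos, fun h => absurd h hd⟩
  choose n hn0 hn using hn
  set q : ℕ := s.card.factorial * N * ∏ i ∈ s, n (u i - u i₀) with hqdef
  have hq : 0 < q :=
    Nat.mul_pos (Nat.mul_pos (Nat.factorial_pos _) hN) (Finset.prod_pos fun i _ => hn0 _)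
  have hNq : N ∣ q := Dvd.dvd.mul_right (Dvd.intro_left _ rfl) _
  have hfq : s.card.factorial ∣ q := Dvd.dvd.mul_right (Dvd.intro _ rfl) _
  have hnq : ∀ i ∈ s, n (u i - u i₀) ∣ q := fun i his =>
    Dvd.dvd.mul_left (Finset.dvd_prod_of_mem _ his) _
  have hcls : ∀ i, ((QuotientAddGroup.mk (u i) : G ⧸ Tor x) = QuotientAddGroup.mk (u i₀)) ↔
      u i - u i₀ ∈ Tor x := by
    intro i
    rw [eq_comm, QuotientAddGroup.eq]
    constructor
    · intro h
      have : u i - u i₀ = -u i₀ + u i := by abel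
      rw [this]; exact h
    · intro h
      have : -u i₀ + u i = u i - u i₀ := by abel
      rw [this]; exact h
  -- the phases
  have hph : ∀ i : ι, ∃ t : G → Bool, (∀ g, sh (N • g) t = t) ∧
      (u i - u i₀ ∉ Tor x → ∀ k : G, ∃ J : ℕ, ∀ j, J ≤ j →
        x (k - (1 + q * j) • (u i - u i₀)) = t (k - (u i - u i₀))) := by
    intro i
    by_cases h : u i - u i₀ ∈ Tor x
    · exact ⟨fun _ => true, fun g => rfl, fun h' => absurd h h'⟩
    · obtain ⟨t, ht, h1⟩ := phase x S hS hi hSx N hNS (u i - u i₀) h q hq hNq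
      exact ⟨t, fun g => hNS g t ht, fun _ => h1⟩
  choose t ht1 ht2 using hph
  -- the main identity
  have hid : ∀ k : G,
      ∑ i ∈ s with (QuotientAddGroup.mk (u i) : G ⧸ Tor x) = QuotientAddGroup.mk (u i₀),
        ind (x (k - (u i - u i₀))) +
      ∑ i ∈ s with ¬ ((QuotientAddGroup.mk (u i) : G ⧸ Tor x) = QuotientAddGroup.mk (u i₀)),
        ind (t i (k - (u i - u i₀))) = 1 := by
    intro k
    -- choose j large for all indices
    have hJ : ∀ i : ι, ∃ J : ℕ, u i - u i₀ ∉ Tor x → ∀ j, J ≤ j →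
        x (k - (1 + q * j) • (u i - u i₀)) = t i (k - (u i - u i₀)) := by
      intro i
      by_cases h : u i - u i₀ ∈ Tor x
      · exact ⟨0, fun h' => absurd h h'⟩
      · obtain ⟨J, hJ⟩ := ht2 i h k
        exact ⟨J, fun _ => hJ⟩
    choose J hJ using hJ
    set j := ∑ i ∈ s, J i with hj
    have hJle : ∀ i ∈ s, J i ≤ j := fun i his =>
      Finset.single_le_sum (f := J) (fun _ _ => Nat.zero_le _) his
    have hcop : Nat.Coprime (1 + q * j) (s.card.factorial) := by
      obtain ⟨m, hm⟩ := hfq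
      rw [hm, mul_assoc]
      simp
    have h1 := dil s u x hx (1 + q * j) (by omega) hcop (k + (1 + q * j) • u i₀)
    have h2 : ∑ i ∈ s, ind (x (k + (1 + q * j) • u i₀ - (1 + q * j) • u i)) =
        ∑ i ∈ s, ind (x (k - (1 + q * j) • (u i - u i₀))) := by
      refine Finset.sum_congr rfl fun i _ => ?_
      congr 2
      rw [smul_sub]
      abel
    have h1' : ∑ i ∈ s, ind (x (k - (1 + q * j) • (u i - u i₀))) = 1 := by
      rw [← h2]; exact h1
    rw [← Finset.sum_filter_add_sum_filter_not s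
      (fun i => (QuotientAddGroup.mk (u i) : G ⧸ Tor x) = QuotientAddGroup.mk (u i₀))] at h1'
    rw [← h1']
    congr 1
    · refine Finset.sum_congr rfl fun i hi' => ?_
      rw [Finset.mem_filter, hcls] at hi'
      obtain ⟨his, hiT⟩ := hi'
      have h3 : sh ((q * j) • (u i - u i₀)) x = x := by
        obtain ⟨m, hm⟩ := hnq i his
        rw [hm]
        have : n (u i - u i₀) * m * j = (m * j) * n (u i - u i₀) := by ring
        rw [this, mul_smul]
        exact sh_nsmul_eq x _ (hn _ hiT) _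
      have h4 := congrFun h3 (k - (1 + q * j) • (u i - u i₀))
      rw [← h4]
      show ind (x _) = ind (x _)
      congr 2
      rw [add_nsmul, one_nsmul]
      abel
    · refine Finset.sum_congr rfl fun i hi' => ?_
      rw [Finset.mem_filter, hcls] at hi'
      obtain ⟨his, hiT⟩ := hi'
      rw [hJ i hiT j (hJle i his)]
  have h1 := hid (k + N • g)
  have h2 := hid k
  have h3 : ∑ i ∈ s with ¬ ((QuotientAddGroup.mk (u i) : G ⧸ Tor x) = QuotientAddGroup.mk (u i₀)),
        ind (t i (k + N • g - (u i - u i₀))) =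
      ∑ i ∈ s with ¬ ((QuotientAddGroup.mk (u i) : G ⧸ Tor x) = QuotientAddGroup.mk (u i₀)),
        ind (t i (k - (u i - u i₀))) := by
    refine Finset.sum_congr rfl fun i _ => ?_
    have h4 := congrFun (ht1 i g) (k - (u i - u i₀))
    rw [← h4]
    show ind (t i _) = ind (t i _)
    congr 2
    abel
  rw [h3] at h1
  omega

end TilDich
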